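import Pool.Agent.N444.Two.Bound
import Pool.Agent.H122R2.N6.Count

/-! From a 3-graph in which every four vertices span an edge, and a clique of it, to the structures
of the certificates. -/

set_option autoImplicit false
open Finset
open scoped Classical

namespace Pool.Agent.N444.Two
open Pool.Agent.H122R2.N6 (Bt Sy NoK4 B2 k4b tri tri_sy tri_noK4 K43Free six_card_le distinct_of_mem)

section
variable {V : Type}

/-- the colouring that is `1` on `A` -/
noncomputable def col (A : Finset V) (v : V) : ℕ := if v ∈ A then 1 else 0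

theorem col_bt (A : Finset V) (v : V) : Bt (col A v) := by
  unfold col Bt
  split_ifs <;> simp

theorem tri_of_mem {H : Finset (Finset V)} {A : Finset V}
    (hA : ∀ e ∈ H, ¬ e ⊆ A) {x y z : V} (hx : x ∈ A) (hy : y ∈ A) (hz : z ∈ A) :
    tri H x y z = 0 := by
  unfold tri
  rw [if_neg]
  intro h
  refine hA _ h ?_
  intro w hw
  simp only [mem_insert, mem_singleton] at hw
  rcases hw with rfl | rfl | rfl <;> assumption

theorem k4b_false {x y z b : ℕ} (h : x = 1 → y = 1 → z = 1 → b = 0) (hx : Bt x) (hy : Bt y) (hz : Bt z)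
    (hb : Bt b) : k4b x y z b = false := by
  rcases hx with rfl | rfl <;> rcases hy with rfl | rfl <;> rcases hz with rfl | rfl <;>
    rcases hb with rfl | rfl <;> first | rfl | (exact absurd (h rfl rfl rfl) (by norm_num))

theorem st_one {H : Finset (Finset V)} (hH : ∀ e ∈ H, e.card = 3) (hF : K43Free H) {A : Finset V}
    (hA : ∀ e ∈ H, ¬ e ⊆ A) : St false (tri H) (col A) where
  sy := tri_sy H
  cb := col_bt A
  hK := tri_noK4 hH hF
  hi x y z := by
    unfold bd
    rw [k4b_false _ (col_bt A x) (col_bt A y) (col_bt A z) ((tri_sy H).b x y z)]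
    · rfl
    · intro h1 h2 h3
      have mem : ∀ v, col A v = 1 → v ∈ A := by
        intro v hv
        unfold col at hv
        by_contra hn
        rw [if_neg hn] at hv
        exact absurd hv (by norm_num)
      exact tri_of_mem hA (mem x h1) (mem y h2) (mem z h3)

theorem st_two {H : Finset (Finset V)} (hH : ∀ e ∈ H, e.card = 3) (hF : K43Free H) {A : Finset V}
    (hA : ∀ e ∈ H, ¬ e ⊆ A) (hB : ∀ e ∈ H, ∃ v ∈ e, v ∈ A) : St true (tri H) (col A) where
  sy := tri_sy H
  cb := col_bt A
  hK := tri_noK4 hH hF
  hi x y z := by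
    have h1 := (st_one hH hF hA).hi x y z
    unfold bd at h1 ⊢
    have h2 : k4b (col A x) (col A y) (col A z) (tri H x y z) = false := by
      cases hk : k4b (col A x) (col A y) (col A z) (tri H x y z) with
      | false => rfl
      | true => rw [hk] at h1; exact absurd h1 (by simp)
    rw [h2]
    have hbt : ∀ v, Bt (Nat.sub 1 (col A v)) := by
      intro v
      rcases col_bt A v with h | h <;> rw [h]
      · right; rfl
      · left; rfl
    rw [k4b_false _ (hbt x) (hbt y) (hbt z) ((tri_sy H).b x y z)]
    · rfl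
    · intro h1 h2 h3
      have mem : ∀ v, Nat.sub 1 (col A v) = 1 → v ∉ A := by
        intro v hv hn
        unfold col at hv
        rw [if_pos hn] at hv
        exact absurd hv (by norm_num)
      unfold tri
      rw [if_neg]
      intro h
      obtain ⟨v, hv, hvA⟩ := hB _ h
      simp only [mem_insert, mem_singleton] at hv
      rcases hv with rfl | rfl | rfl
      · exact mem _ h1 hvA
      · exact mem _ h2 hvA
      · exact mem _ h3 hvA

variable [Fintype V]

theorem SE_ge {H : Finset (Finset V)} (hH : ∀ e ∈ H, e.card = 3) : 6 * (H.card : ℤ) ≤ SE (tri H) := by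
  have h := six_card_le hH
  have e : SE (tri H) = ((∑ a, ∑ b, ∑ c, tri H a b c : ℕ) : ℤ) := by
    unfold SE
    push_cast
    rfl
  rw [e]
  exact_mod_cast h

theorem sum_col (A : Finset V) : ∑ v, (col A v : ℤ) = A.card := by
  have : ∀ v, (col A v : ℤ) = if v ∈ A then 1 else 0 := by
    intro v
    unfold col
    split_ifs <;> simp
  simp only [this]
  rw [Finset.sum_ite_mem, univ_inter, sum_const, nsmul_eq_mul, mul_one]

/-- the complement of a 3-graph -/
noncomputable def cmpl (T : Finset (Finset V)) : Finset (Finset V) := (univ.powersetCard 3) \ T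

theorem cmpl_card3 (T : Finset (Finset V)) : ∀ e ∈ cmpl T, e.card = 3 := by
  intro e he
  exact (mem_powersetCard.mp (mem_sdiff.mp he).1).2

theorem cmpl_not {T : Finset (Finset V)} {e : Finset V} (he : e ∈ cmpl T) : e ∉ T :=
  (mem_sdiff.mp he).2

theorem cmpl_free {T : Finset (Finset V)} (h3 : ∀ e ∈ T, e.card = 3)
    (hT : ∀ S : Finset V, S.card = 4 → ∃ e ∈ T, e ⊆ S) : K43Free (cmpl T) := by
  intro S hS
  obtain ⟨e, he, heS⟩ := hT S hS
  exact ⟨e, heS, h3 e he, fun h => (mem_sdiff.mp h).2 he⟩

theorem cmpl_card {T : Finset (Finset V)} (h3 : ∀ e ∈ T, e.card = 3) :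
    (cmpl T).card + T.card = (Fintype.card V).choose 3 := by
  unfold cmpl
  rw [card_sdiff_of_subset, card_powersetCard, card_univ]
  · refine Nat.sub_add_cancel ?_
    rw [← card_univ, ← card_powersetCard]
    exact card_le_card fun e he => mem_powersetCard.mpr ⟨subset_univ _, h3 e he⟩
  · exact fun e he => mem_powersetCard.mpr ⟨subset_univ _, h3 e he⟩

end
end Pool.Agent.N444.Two
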