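import Pool.Agent.N444.Two.Leaf
import Pool.Agent.H122R2.N6.Bound

/-! From the leaf inequality to the number of edges. -/

set_option autoImplicit false
set_option maxRecDepth 100000
set_option maxHeartbeats 4000000
open Finset

namespace Pool.Agent.N444.Two
open Pool.Agent.H122R2.N6 (Bt Sy NoK4 B2 k4b B2_true or_false_left cd6 psum conv6 nsum nall nsum_eq nall_true)

section
variable {V : Type} [Fintype V]

theorem psd1 {ι : Type} [Fintype ι] (K : ℕ) (u : ℕ → ι → ℤ) :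
    0 ≤ ∑ d, ∑ e, ∑ t ∈ range K, u t d * u t e := by
  have h : ∑ d, ∑ e, ∑ t ∈ range K, u t d * u t e
      = ∑ t ∈ range K, ((∑ d, u t d) * ∑ e, u t e) := by
    calc ∑ d, ∑ e, ∑ t ∈ range K, u t d * u t e
        = ∑ d, ∑ t ∈ range K, ∑ e, u t d * u t e := by
          refine sum_congr rfl fun d _ => ?_
          rw [sum_comm]
      _ = ∑ t ∈ range K, ∑ d, ∑ e, u t d * u t e := sum_comm
      _ = _ := by
          refine sum_congr rfl fun t _ => ?_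
          rw [Finset.sum_mul_sum]
  rw [h]
  exact sum_nonneg fun t _ => mul_self_nonneg _

theorem coll {ι : Type} [Fintype ι] (n : ℕ) (x : ι → ℕ) (hx : ∀ a, x a < n) :
    0 ≤ ∑ a, ∑ b, ((n : ℤ) * (if x a = x b then 1 else 0) - 1) := by
  have h1 : ∀ a b, (if x a = x b then (1 : ℤ) else 0)
      = ∑ i ∈ range n, (if x a = i then 1 else 0) * (if x b = i then 1 else 0) := by
    intro a b
    rw [sum_eq_single (x a)]
    · by_cases h : x a = x b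
      · simp [h]
      · simp [h, Ne.symm h]
    · intro i _ hi
      rw [if_neg (Ne.symm hi), zero_mul]
    · intro h
      exact absurd (mem_range.mpr (hx a)) h
  have h2 : ∑ a, ∑ b, (if x a = x b then (1 : ℤ) else 0)
      = ∑ i ∈ range n, (∑ a, (if x a = i then (1 : ℤ) else 0)) ^ 2 := by
    calc ∑ a, ∑ b, (if x a = x b then (1 : ℤ) else 0)
        = ∑ a, ∑ b, ∑ i ∈ range n, (if x a = i then (1 : ℤ) else 0) * (if x b = i then 1 else 0) := by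
          refine sum_congr rfl fun a _ => sum_congr rfl fun b _ => h1 a b
      _ = ∑ a, ∑ i ∈ range n, ∑ b, (if x a = i then (1 : ℤ) else 0) * (if x b = i then 1 else 0) := by
          refine sum_congr rfl fun a _ => sum_comm
      _ = ∑ i ∈ range n, ∑ a, ∑ b, (if x a = i then (1 : ℤ) else 0) * (if x b = i then 1 else 0) := sum_comm
      _ = _ := by
          refine sum_congr rfl fun i _ => ?_
          rw [sq, Finset.sum_mul_sum]
  have h3 : (Fintype.card ι : ℤ) = ∑ i ∈ range n, ∑ a, (if x a = i then (1 : ℤ) else 0) := by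
    rw [sum_comm]
    have : ∀ a, ∑ i ∈ range n, (if x a = i then (1 : ℤ) else 0) = 1 := by
      intro a
      rw [sum_ite_eq]
      rw [if_pos (mem_range.mpr (hx a))]
    simp only [this, sum_const, card_univ, nsmul_eq_mul, mul_one]
  have h4 := sq_sum_le_card_mul_sum_sq (s := range n) (f := fun i => ∑ a, (if x a = i then (1 : ℤ) else 0))
  rw [card_range, ← h3, ← h2] at h4
  have h5 : ∑ a, ∑ b, ((n : ℤ) * (if x a = x b then 1 else 0) - 1)
      = (n : ℤ) * ∑ a, ∑ b, (if x a = x b then (1 : ℤ) else 0) - (Fintype.card ι : ℤ) ^ 2 := by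
    simp only [sum_sub_distrib, ← mul_sum, sum_const, card_univ, nsmul_eq_mul]
    ring
  rw [h5]
  linarith

variable (E : V → V → V → ℕ) (k : V → ℕ)

/-- the sum of the edge indicator -/
def SE : ℤ := ∑ a, ∑ b, ∑ c, (E a b c : ℤ)

theorem sumQ : ∑ a, ∑ b, ∑ c, ∑ d, ((E a b c : ℤ) + E a b d + E a c d + E b c d)
    = 4 * (Fintype.card V : ℤ) * SE E := by
  unfold SE
  simp only [sum_add_distrib]
  have e1 : ∑ a, ∑ b, ∑ c, ∑ _d : V, (E a b c : ℤ) = (Fintype.card V : ℤ) * ∑ a, ∑ b, ∑ c, (E a b c : ℤ) := by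
    simp only [sum_const, card_univ, nsmul_eq_mul, mul_sum]
  have e2 : ∑ a, ∑ b, ∑ _c : V, ∑ d, (E a b d : ℤ) = (Fintype.card V : ℤ) * ∑ a, ∑ b, ∑ c, (E a b c : ℤ) := by
    simp only [sum_const, card_univ, nsmul_eq_mul, mul_sum]
  have e3 : ∑ a, ∑ _b : V, ∑ c, ∑ d, (E a c d : ℤ) = (Fintype.card V : ℤ) * ∑ a, ∑ b, ∑ c, (E a b c : ℤ) := by
    simp only [sum_const, card_univ, nsmul_eq_mul, mul_sum]
  have e4 : ∑ _a : V, ∑ b, ∑ c, ∑ d, (E b c d : ℤ) = (Fintype.card V : ℤ) * ∑ a, ∑ b, ∑ c, (E a b c : ℤ) := by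
    simp only [sum_const, card_univ, nsmul_eq_mul]
  rw [e1, e2, e3, e4]
  ring

theorem lower4 (K : ℕ) (q4 : ℕ → ℕ → ℕ → ℕ) (O4 W D N : ℤ)
    (u : V → V → V → V → ℕ → V → ℤ) (M : V → V → V → V → ℤ)
    (hM : ∀ a b c d, 0 ≤ M a b c d)
    (hN : N * (Fintype.card V : ℤ) ≤ D * ∑ x, (k x : ℤ))
    (P δ : ℤ) (hP : 0 < P) (hδ : 0 ≤ δ) (nn : V → V → V → V → ℕ) (x : V → V → V → V → V → ℕ)
    (hx : ∀ a b c d e, x a b c d e < nn a b c d)
    (hq4 : ∀ a b c d e f,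
      ∑ t ∈ range K, u a b c d t e * u a b c d t f + P * (O4
        + W * ((E a b c : ℤ) + E a b d + E a c d + E b c d)
        + (M a b c d * (D * (k e : ℤ) - N) + M a b c d * (D * (k f : ℤ) - N)))
        + δ * ((nn a b c d : ℤ) * (if x a b c d e = x a b c d f then 1 else 0) - 1)
        ≤ P * (F4 E k q4 a b c d e f : ℤ)) :
    O4 * (Fintype.card V : ℤ) ^ 6 + 4 * W * (Fintype.card V : ℤ) ^ 3 * SE E
      ≤ ∑ x : Fin 6 → V, (F4 E k q4 (x 0) (x 1) (x 2) (x 3) (x 4) (x 5) : ℤ) := by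
  rw [conv6 (fun a b c d e f => (F4 E k q4 a b c d e f : ℤ))]
  have e1 : O4 * (Fintype.card V : ℤ) ^ 6 + 4 * W * (Fintype.card V : ℤ) ^ 3 * SE E
      = ∑ a, ∑ b, ∑ c, ∑ d, (O4 * (Fintype.card V : ℤ) ^ 2
        + W * (Fintype.card V : ℤ) ^ 2 * ((E a b c : ℤ) + E a b d + E a c d + E b c d)) := by
    have h := sumQ E
    have hh : ∀ (X Y : ℤ) (q : V → V → V → V → ℤ), ∑ a, ∑ b, ∑ c, ∑ d, (X + Y * q a b c d)
        = X * (Fintype.card V : ℤ) ^ 4 + Y * ∑ a, ∑ b, ∑ c, ∑ d, q a b c d := by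
      intro X Y q
      simp only [sum_add_distrib, sum_const, card_univ, nsmul_eq_mul, ← mul_sum]
      ring
    rw [hh, h]
    ring
  rw [e1]
  refine sum_le_sum fun a _ => sum_le_sum fun b _ => sum_le_sum fun c _ => sum_le_sum fun d _ => ?_
  have p := psd1 K (fun t e => u a b c d t e)
  have q := mul_nonneg hδ (coll (nn a b c d) (x a b c d) (hx a b c d))
  have hs := sum_le_sum fun e (_ : e ∈ (univ : Finset V)) => sum_le_sum fun f (_ : f ∈ (univ : Finset V)) => hq4 a b c d e f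
  simp only [sum_add_distrib (f := fun _ => ∑ t ∈ range K, _), sum_add_distrib, ← mul_sum] at hs
  have hk : 0 ≤ M a b c d * (D * ∑ x, (k x : ℤ) - N * (Fintype.card V : ℤ)) :=
    mul_nonneg (hM a b c d) (by linarith)
  have s1 : ∑ e : V, (D * (k e : ℤ) - N)
      = (D * ∑ x, (k x : ℤ) - N * (Fintype.card V : ℤ)) := by
    rw [sum_sub_distrib, ← mul_sum, sum_const, card_univ, nsmul_eq_mul]
    ring
  have hn : 0 ≤ (Fintype.card V : ℤ) := Int.natCast_nonneg _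
  simp only [sum_const, card_univ, nsmul_eq_mul, ← mul_sum, s1] at hs
  have h8 := mul_nonneg hP.le (mul_nonneg hn hk)
  refine le_of_mul_le_mul_left ?_ hP
  linarith

theorem lower2 (K : ℕ) (q2 : ℕ → ℕ → ℕ → ℕ) (O2 : ℤ)
    (v : V → V → ℕ → V → V → ℤ)
    (hq2 : ∀ a b c d e f, (F2 E k q2 a b c d e f : ℤ) =
      ∑ t ∈ range K, v a b t c d * v a b t e f + O2) :
    O2 * (Fintype.card V : ℤ) ^ 6
      ≤ ∑ x : Fin 6 → V, (F2 E k q2 (x 0) (x 1) (x 2) (x 3) (x 4) (x 5) : ℤ) := by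
  rw [conv6 (fun a b c d e f => (F2 E k q2 a b c d e f : ℤ))]
  have e1 : O2 * (Fintype.card V : ℤ) ^ 6
      = ∑ a : V, ∑ b : V, ∑ c : V, ∑ d : V, ∑ e : V, ∑ f : V, O2 := by
    simp only [sum_const, card_univ, nsmul_eq_mul]
    ring
  rw [e1]
  refine sum_le_sum fun a _ => sum_le_sum fun b _ => ?_
  simp only [hq2, sum_add_distrib]
  have p := psd1 (ι := V × V) K (fun t q => v a b t q.1 q.2)
  simp only [Fintype.sum_prod_type] at p
  linarith

theorem sumL4 (q4 : ℕ → ℕ → ℕ → ℕ) :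
    ∑ x : Fin 6 → V, (L4 E k q4 (x 0) (x 1) (x 2) (x 3) (x 4) (x 5) : ℤ)
      = 15 * ∑ x : Fin 6 → V, (F4 E k q4 (x 0) (x 1) (x 2) (x 3) (x 4) (x 5) : ℤ) := by
  have f4 : ∀ i0 i1 i2 i3 i4 i5 : Fin 6, Function.Injective ![i0, i1, i2, i3, i4, i5] →
      ∑ x : Fin 6 → V, (F4 E k q4 (x i0) (x i1) (x i2) (x i3) (x i4) (x i5) : ℤ)
      = ∑ x : Fin 6 → V, (F4 E k q4 (x 0) (x 1) (x 2) (x 3) (x 4) (x 5) : ℤ) :=
    fun i0 i1 i2 i3 i4 i5 hg =>
      psum (fun a b c d e f => (F4 E k q4 a b c d e f : ℤ)) ![i0, i1, i2, i3, i4, i5]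
        (Finite.injective_iff_bijective.mp hg)
  simp only [L4, Nat.cast_add, sum_add_distrib]
  rw [f4 0 1 2 4 3 5 (by decide), f4 0 1 2 5 3 4 (by decide), f4 0 1 3 4 2 5 (by decide), f4 0 1 3 5 2 4 (by decide), f4 0 1 4 5 2 3 (by decide), f4 0 2 3 4 1 5 (by decide), f4 0 2 3 5 1 4 (by decide), f4 0 2 4 5 1 3 (by decide), f4 0 3 4 5 1 2 (by decide), f4 1 2 3 4 0 5 (by decide), f4 1 2 3 5 0 4 (by decide), f4 1 2 4 5 0 3 (by decide), f4 1 3 4 5 0 2 (by decide), f4 2 3 4 5 0 1 (by decide)]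
  ring

def G2 (q2 : ℕ → ℕ → ℕ → ℕ) (a b c d e f : V) : ℕ :=
  F2 E k q2 a b c d e f + (F2 E k q2 a b c e d f + F2 E k q2 a b c f d e)

theorem L2_eq (q2 : ℕ → ℕ → ℕ → ℕ) (a b c d e f : V) : L2 E k q2 a b c d e f =
    (G2 E k q2 a b c d e f +
    (G2 E k q2 a c b d e f +
    (G2 E k q2 a d b c e f +
    (G2 E k q2 a e b c d f +
    (G2 E k q2 a f b c d e +
    (G2 E k q2 b c a d e f +
    (G2 E k q2 b d a c e f +
    (G2 E k q2 b e a c d f +
    (G2 E k q2 b f a c d e +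
    (G2 E k q2 c d a b e f +
    (G2 E k q2 c e a b d f +
    (G2 E k q2 c f a b d e +
    (G2 E k q2 d e a b c f +
    (G2 E k q2 d f a b c e +
    G2 E k q2 e f a b c d)))))))))))))) := by
  unfold L2 G2
  ring

theorem sumG2 (q2 : ℕ → ℕ → ℕ → ℕ) :
    ∑ x : Fin 6 → V, (G2 E k q2 (x 0) (x 1) (x 2) (x 3) (x 4) (x 5) : ℤ)
      = 3 * ∑ x : Fin 6 → V, (F2 E k q2 (x 0) (x 1) (x 2) (x 3) (x 4) (x 5) : ℤ) := by
  have f2 : ∀ i0 i1 i2 i3 i4 i5 : Fin 6, Function.Injective ![i0, i1, i2, i3, i4, i5] →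
      ∑ x : Fin 6 → V, (F2 E k q2 (x i0) (x i1) (x i2) (x i3) (x i4) (x i5) : ℤ)
      = ∑ x : Fin 6 → V, (F2 E k q2 (x 0) (x 1) (x 2) (x 3) (x 4) (x 5) : ℤ) :=
    fun i0 i1 i2 i3 i4 i5 hg =>
      psum (fun a b c d e f => (F2 E k q2 a b c d e f : ℤ)) ![i0, i1, i2, i3, i4, i5]
        (Finite.injective_iff_bijective.mp hg)
  simp only [G2, Nat.cast_add, sum_add_distrib]
  rw [f2 0 1 2 4 3 5 (by decide), f2 0 1 2 5 3 4 (by decide)]
  ring

theorem sumL2 (q2 : ℕ → ℕ → ℕ → ℕ) :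
    ∑ x : Fin 6 → V, (L2 E k q2 (x 0) (x 1) (x 2) (x 3) (x 4) (x 5) : ℤ)
      = 45 * ∑ x : Fin 6 → V, (F2 E k q2 (x 0) (x 1) (x 2) (x 3) (x 4) (x 5) : ℤ) := by
  have g2 : ∀ i0 i1 i2 i3 i4 i5 : Fin 6, Function.Injective ![i0, i1, i2, i3, i4, i5] →
      ∑ x : Fin 6 → V, (G2 E k q2 (x i0) (x i1) (x i2) (x i3) (x i4) (x i5) : ℤ)
      = ∑ x : Fin 6 → V, (G2 E k q2 (x 0) (x 1) (x 2) (x 3) (x 4) (x 5) : ℤ) :=
    fun i0 i1 i2 i3 i4 i5 hg =>
      psum (fun a b c d e f => (G2 E k q2 a b c d e f : ℤ)) ![i0, i1, i2, i3, i4, i5]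
        (Finite.injective_iff_bijective.mp hg)
  simp only [L2_eq, Nat.cast_add, sum_add_distrib]
  rw [g2 0 2 1 3 4 5 (by decide), g2 0 3 1 2 4 5 (by decide), g2 0 4 1 2 3 5 (by decide), g2 0 5 1 2 3 4 (by decide), g2 1 2 0 3 4 5 (by decide), g2 1 3 0 2 4 5 (by decide), g2 1 4 0 2 3 5 (by decide), g2 1 5 0 2 3 4 (by decide), g2 2 3 0 1 4 5 (by decide), g2 2 4 0 1 3 5 (by decide), g2 2 5 0 1 3 4 (by decide), g2 3 4 0 1 2 5 (by decide), g2 3 5 0 1 2 4 (by decide), g2 4 5 0 1 2 3 (by decide), sumG2]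
  ring

theorem bound (K K2 C : ℕ) (q4 : ℕ → ℕ → ℕ → ℕ) (q2 : ℕ → ℕ → ℕ → ℕ) (O4 O2 W D N : ℤ)
    (u : V → V → V → V → ℕ → V → ℤ) (M : V → V → V → V → ℤ)
    (hM : ∀ a b c d, 0 ≤ M a b c d)
    (hN : N * (Fintype.card V : ℤ) ≤ D * ∑ x, (k x : ℤ))
    (P δ : ℤ) (hP : 0 < P) (hδ : 0 ≤ δ) (nn : V → V → V → V → ℕ) (x : V → V → V → V → V → ℕ)
    (hx : ∀ a b c d e, x a b c d e < nn a b c d)
    (hq4 : ∀ a b c d e f,
      ∑ t ∈ range K, u a b c d t e * u a b c d t f + P * (O4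
        + W * ((E a b c : ℤ) + E a b d + E a c d + E b c d)
        + (M a b c d * (D * (k e : ℤ) - N) + M a b c d * (D * (k f : ℤ) - N)))
        + δ * ((nn a b c d : ℤ) * (if x a b c d e = x a b c d f then 1 else 0) - 1)
        ≤ P * (F4 E k q4 a b c d e f : ℤ))
    (v : V → V → ℕ → V → V → ℤ)
    (hq2 : ∀ a b c d e f, (F2 E k q2 a b c d e f : ℤ) =
      ∑ t ∈ range K2, v a b t c d * v a b t e f + O2)
    (hleaf : ∀ a b c d e f : V, L4 E k q4 a b c d e f + L2 E k q2 a b c d e f ≤ C) :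
    60 * W * (Fintype.card V : ℤ) ^ 3 * SE E + (15 * O4 + 45 * O2) * (Fintype.card V : ℤ) ^ 6
      ≤ C * (Fintype.card V : ℤ) ^ 6 := by
  have A4 := lower4 E k K q4 O4 W D N u M hM hN P δ hP hδ nn x hx hq4
  have A2 := lower2 E k K2 q2 O2 v hq2
  have key : ∑ x : Fin 6 → V, ((L4 E k q4 (x 0) (x 1) (x 2) (x 3) (x 4) (x 5) : ℤ)
      + (L2 E k q2 (x 0) (x 1) (x 2) (x 3) (x 4) (x 5) : ℤ)) ≤ C * (Fintype.card V : ℤ) ^ 6 := by
    calc _ ≤ ∑ x : Fin 6 → V, (C : ℤ) :=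
          sum_le_sum fun x _ => by exact_mod_cast hleaf (x 0) (x 1) (x 2) (x 3) (x 4) (x 5)
      _ = C * (Fintype.card V : ℤ) ^ 6 := by
          rw [sum_const, card_univ, Fintype.card_fun, Fintype.card_fin, nsmul_eq_mul]
          push_cast
          ring
  rw [sum_add_distrib, sumL4 E k q4, sumL2 E k q2] at key
  linarith

/-- the inequality in the number of edges, after division by `n³` -/
theorem bound' (K K2 C : ℕ) (q4 : ℕ → ℕ → ℕ → ℕ) (q2 : ℕ → ℕ → ℕ → ℕ) (O4 O2 W D N : ℤ)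
    (u : V → V → V → V → ℕ → V → ℤ) (M : V → V → V → V → ℤ)
    (hM : ∀ a b c d, 0 ≤ M a b c d)
    (hN : N * (Fintype.card V : ℤ) ≤ D * ∑ x, (k x : ℤ))
    (P δ : ℤ) (hP : 0 < P) (hδ : 0 ≤ δ) (nn : V → V → V → V → ℕ) (x : V → V → V → V → V → ℕ)
    (hx : ∀ a b c d e, x a b c d e < nn a b c d)
    (hq4 : ∀ a b c d e f,
      ∑ t ∈ range K, u a b c d t e * u a b c d t f + P * (O4
        + W * ((E a b c : ℤ) + E a b d + E a c d + E b c d)
        + (M a b c d * (D * (k e : ℤ) - N) + M a b c d * (D * (k f : ℤ) - N)))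
        + δ * ((nn a b c d : ℤ) * (if x a b c d e = x a b c d f then 1 else 0) - 1)
        ≤ P * (F4 E k q4 a b c d e f : ℤ))
    (v : V → V → ℕ → V → V → ℤ)
    (hq2 : ∀ a b c d e f, (F2 E k q2 a b c d e f : ℤ) =
      ∑ t ∈ range K2, v a b t c d * v a b t e f + O2)
    (hleaf : ∀ a b c d e f : V, L4 E k q4 a b c d e f + L2 E k q2 a b c d e f ≤ C) :
    60 * W * SE E ≤ (C - (15 * O4 + 45 * O2)) * (Fintype.card V : ℤ) ^ 3 := by
  have h := bound E k K K2 C q4 q2 O4 O2 W D N u M hM hN P δ hP hδ nn x hx hq4 v hq2 hleaf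
  rcases Nat.eq_zero_or_pos (Fintype.card V) with h0 | h0
  · have : IsEmpty V := Fintype.card_eq_zero_iff.mp h0
    have hS : SE E = 0 := by
      unfold SE
      simp
    rw [hS, h0]
    simp
  · have hn : 0 < (Fintype.card V : ℤ) ^ 3 := by positivity
    refine le_of_mul_le_mul_left ?_ hn
    nlinarith

end
end Pool.Agent.N444.Two
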