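import Pool.Agent.N444.Two.Bound

/-! Interface between the tables of a certificate and the bound. -/

set_option autoImplicit false
set_option maxRecDepth 100000
set_option maxHeartbeats 4000000
open Finset

namespace Pool.Agent.N444.Two
open Pool.Agent.H122R2.N6 (Bt Sy NoK4 B2 k4b B2_true or_false_left cd6 cd6_lt nsum nall nsum_eq nall_true)

/-- all codes of structures are inside the tables -/
def mapck (m : Bool) (R : ℕ) (rho : ℕ → ℕ) (pc : ℕ → ℕ → ℕ) (nr er : ℕ → ℕ) (ct : ℕ → ℕ → ℕ) : Bool :=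
  B2 fun c0 => B2 fun c1 => B2 fun c2 => B2 fun c3 => B2 fun p0 => or (bd m c0 c1 c2 p0) (B2 fun p1 => or (bd m c0 c1 c3 p1) (B2 fun p2 => or (bd m c0 c2 c3 p2) (B2 fun p3 => or (bd m c1 c2 c3 p3) (or (k4b p0 p1 p2 p3) (and (Nat.blt (rho (cd8 c0 c1 c2 c3 p0 p1 p2 p3)) R) (and (Nat.beq (er (rho (cd8 c0 c1 c2 c3 p0 p1 p2 p3))) (Nat.add p0 (Nat.add p1 (Nat.add p2 p3)))) (B2 fun ci => B2 fun i0 => or (bd m c0 c1 ci i0) (B2 fun i1 => or (bd m c0 c2 ci i1) (B2 fun i2 => or (bd m c1 c2 ci i2) (or (k4b p0 i0 i1 i2) (B2 fun i3 => or (bd m c0 c3 ci i3) (B2 fun i4 => or (bd m c1 c3 ci i4) (or (k4b p1 i0 i3 i4) (B2 fun i5 => or (bd m c2 c3 ci i5) (or (k4b p2 i1 i3 i5) (or (k4b p3 i2 i4 i5) (and (Nat.blt (pc (cd8 c0 c1 c2 c3 p0 p1 p2 p3) (cd7 ci i0 i1 i2 i3 i4 i5)) (nr (rho (cd8 c0 c1 c2 c3 p0 p1 p2 p3)))) (Nat.beq (ct (rho (cd8 c0 c1 c2 c3 p0 p1 p2 p3)) (pc (cd8 c0 c1 c2 c3 p0 p1 p2 p3) (cd7 ci i0 i1 i2 i3 i4 i5)))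 ci))))))))))))))))))

section
variable {V : Type} {E : V → V → V → ℕ} {k : V → ℕ} {m : Bool}

theorem map_all (hS : St m E k) {R : ℕ} {rho : ℕ → ℕ} {pc : ℕ → ℕ → ℕ} {nr er : ℕ → ℕ} {ct : ℕ → ℕ → ℕ}
    (h : mapck m R rho pc nr er ct = true) (a b c d e : V) :
    rho (cd8 (k a) (k b) (k c) (k d) (E a b c) (E a b d) (E a c d) (E b c d)) < R ∧ er (rho (cd8 (k a) (k b) (k c) (k d) (E a b c) (E a b d) (E a c d) (E b c d))) = E a b c + (E a b d + (E a c d + E b c d)) ∧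
      pc (cd8 (k a) (k b) (k c) (k d) (E a b c) (E a b d) (E a c d) (E b c d)) (cd7 (k e) (E a b e) (E a c e) (E b c e) (E a d e) (E b d e) (E c d e)) < nr (rho (cd8 (k a) (k b) (k c) (k d) (E a b c) (E a b d) (E a c d) (E b c d))) ∧ ct (rho (cd8 (k a) (k b) (k c) (k d) (E a b c) (E a b d) (E a c d) (E b c d))) (pc (cd8 (k a) (k b) (k c) (k d) (E a b c) (E a b d) (E a c d) (E b c d)) (cd7 (k e) (E a b e) (E a c e) (E b c e) (E a d e) (E b d e) (E c d e))) = k e := by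
  have h1 := (or_false_left (or_false_left (B2_true (or_false_left (B2_true (or_false_left (B2_true (or_false_left (B2_true (B2_true (B2_true (B2_true (B2_true h (hS.cb a)) (hS.cb b)) (hS.cb c)) (hS.cb d)) (hS.sy.b a b c)) (hS.hi a b c)) (hS.sy.b a b d)) (hS.hi a b d)) (hS.sy.b a c d)) (hS.hi a c d)) (hS.sy.b b c d)) (hS.hi b c d)) (hS.hK a b c d))
  simp only [Bool.and_eq_true] at h1
  have h2 := (or_false_left (or_false_left (or_false_left (B2_true (or_false_left (or_false_left (B2_true (or_false_left (B2_true (or_false_left (or_false_left (B2_true (or_false_left (B2_true (or_false_left (B2_true (B2_true h1.2.2 (hS.cb e)) (hS.sy.b a b e)) (hS.hi a b e)) (hS.sy.b a c e)) (hS.hi a c e)) (hS.sy.b b c e)) (hS.hi b c e)) (hS.hK a b c e)) (hS.sy.b a d e)) (hS.hi a d e)) (hS.sy.b b d e)) (hS.hi b d e)) (hS.hK a b d e)) (hS.sy.b c d e)) (hS.hi c d e)) (hS.hK a c d e)) (hS.hK b c d e))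
  simp only [Bool.and_eq_true] at h2
  exact ⟨Nat.le_of_ble_eq_true h1.1, Nat.eq_of_beq_eq_true h1.2.1, Nat.le_of_ble_eq_true h2.1,
    Nat.eq_of_beq_eq_true h2.2⟩

end

def sl (l : ℕ → ℕ → ℕ → ℕ) (K r i : ℕ) : ℕ := nsum K fun t => l r i t
def ll (l : ℕ → ℕ → ℕ → ℕ) (K r i j : ℕ) : ℕ := nsum K fun t => Nat.mul (l r i t) (l r j t)

/-- the table of a type is a Gram matrix up to the explicit terms and an error that is at least `-δ`,
and at least `(n - 1) δ` on the diagonal -/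
def g4 (tq l : ℕ → ℕ → ℕ → ℕ) (kr er mr nr : ℕ → ℕ) (ct : ℕ → ℕ → ℕ) (B O W D N P δ r i j : ℕ) : Bool :=
  Nat.ble
    (Nat.add (Nat.add (ll l (kr r) r i j) (Nat.add (Nat.mul (kr r) (Nat.mul B B))
      (Nat.mul P (Nat.add O (Nat.add (Nat.mul W (er r))
      (Nat.mul (mr r) (Nat.mul D (Nat.add (ct r i) (ct r j)))))))))
      (cond (Nat.beq i j) (Nat.mul (nr r) δ) 0))
    (Nat.add (Nat.add (Nat.mul P (Nat.add (tq r i j) (Nat.mul 2 (Nat.mul (mr r) N))))
      (Nat.mul B (Nat.add (sl l (kr r) r i) (sl l (kr r) r j)))) δ)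

/-- the row `i` of the table of the type `r` -/
def row4 (tq l : ℕ → ℕ → ℕ → ℕ) (kr er mr nr : ℕ → ℕ) (ct : ℕ → ℕ → ℕ) (B O W D N P δ r i : ℕ) : Bool :=
  nall (Nat.succ i) fun j => and (Nat.beq (tq r j i) (tq r i j)) (g4 tq l kr er mr nr ct B O W D N P δ r i j)

def g2 (q2 l2 : ℕ → ℕ → ℕ → ℕ) (K B O t i j : ℕ) : Bool :=
  Nat.beq (Nat.add (q2 t i j) (Nat.mul B (Nat.add (sl l2 K t i) (sl l2 K t j))))
    (Nat.add (ll l2 K t i j) (Nat.add (Nat.mul K (Nat.mul B B)) O))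

def ck2 (q2 l2 : ℕ → ℕ → ℕ → ℕ) (K B O : ℕ) : Bool :=
  nall 4 fun t => nall 64 fun i => nall 64 fun j => g2 q2 l2 K B O t i j

theorem expand1 (K : ℕ) (u v : ℕ → ℕ) (B : ℤ) :
    ∑ t ∈ range K, ((u t : ℤ) - B) * ((v t : ℤ) - B) =
      ∑ t ∈ range K, ((u t : ℤ) * (v t : ℤ)) + (K : ℤ) * (B * B)
        - B * (∑ t ∈ range K, (u t : ℤ) + ∑ t ∈ range K, (v t : ℤ)) := by
  rw [mul_add, mul_sum, mul_sum]
  have : (K : ℤ) * (B * B) = ∑ _t ∈ range K, B * B := by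
    rw [sum_const, card_range, nsmul_eq_mul]
  rw [this, ← sum_add_distrib, ← sum_add_distrib, ← sum_sub_distrib]
  exact sum_congr rfl fun t _ => by ring

theorem g4_ge {tq l : ℕ → ℕ → ℕ → ℕ} {kr er mr nr : ℕ → ℕ} {ct : ℕ → ℕ → ℕ} {B O W D N P δ r i j : ℕ}
    (h : g4 tq l kr er mr nr ct B O W D N P δ r i j = true) :
    ∑ t ∈ range (kr r), ((l r i t : ℤ) - B) * ((l r j t : ℤ) - B) + P * (O + W * (er r : ℤ)
      + ((mr r : ℤ) * (D * (ct r i : ℤ) - N) + (mr r : ℤ) * (D * (ct r j : ℤ) - N)))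
      + δ * ((nr r : ℤ) * (if i = j then 1 else 0) - 1) ≤ P * (tq r i j : ℤ) := by
  have h := Nat.le_of_ble_eq_true h
  unfold ll sl at h
  rw [nsum_eq, nsum_eq, nsum_eq] at h
  have hc : ((cond (Nat.beq i j) (Nat.mul (nr r) δ) 0 : ℕ) : ℤ) = δ * ((nr r : ℤ) * (if i = j then 1 else 0)) := by
    by_cases hij : i = j
    · subst hij
      rw [if_pos rfl]
      have : Nat.beq i i = true := Nat.beq_refl i
      rw [this]
      simp only [cond_true, Nat.mul_eq]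
      push_cast
      ring
    · rw [if_neg hij]
      have : Nat.beq i j = false := by
        cases hb : Nat.beq i j with
        | false => rfl
        | true => exact absurd (Nat.eq_of_beq_eq_true hb) hij
      rw [this]
      simp
  have h2 := (Nat.cast_le (α := ℤ)).mpr h
  simp only [Nat.add_eq, Nat.mul_eq] at h2 hc
  push_cast at h2
  push_cast at hc
  rw [expand1 (kr r) (fun t => l r i t) (fun t => l r j t) (B : ℤ)]
  rw [hc] at h2
  linarith

theorem g2_eq {q2 l2 : ℕ → ℕ → ℕ → ℕ} {K B O t i j : ℕ} (h : g2 q2 l2 K B O t i j = true) :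
    (q2 t i j : ℤ) = ∑ s ∈ range K, ((l2 t i s : ℤ) - B) * ((l2 t j s : ℤ) - B) + O := by
  have h := Nat.eq_of_beq_eq_true h
  unfold ll sl at h
  rw [nsum_eq, nsum_eq, nsum_eq] at h
  have h2 := congrArg (fun n : ℕ => (n : ℤ)) h
  simp only [Nat.add_eq, Nat.mul_eq] at h2
  push_cast at h2
  rw [expand1 K (fun s => l2 t i s) (fun s => l2 t j s) (B : ℤ)]
  linarith

theorem cd2_lt {x y : ℕ} (hx : Bt x) (hy : Bt y) : cd2 x y < 4 := by
  have := Pool.Agent.H122R2.N6.Bt_lt hx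
  have := Pool.Agent.H122R2.N6.Bt_lt hy
  show x + 2 * y < 4
  omega

/-- all rows of the tables of the types are verified -/
def Rows (tq l : ℕ → ℕ → ℕ → ℕ) (kr er mr nr : ℕ → ℕ) (ct : ℕ → ℕ → ℕ) (B O W D N P δ R : ℕ) : Prop :=
  ∀ r i, r < R → i < nr r → row4 tq l kr er mr nr ct B O W D N P δ r i = true

theorem rows_ge {tq l : ℕ → ℕ → ℕ → ℕ} {kr er mr nr : ℕ → ℕ} {ct : ℕ → ℕ → ℕ} {B O W D N P δ R : ℕ}
    (h : Rows tq l kr er mr nr ct B O W D N P δ R) {r i j : ℕ} (hr : r < R) (hi : i < nr r) (hj : j < nr r) :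
    ∑ t ∈ range (kr r), ((l r i t : ℤ) - B) * ((l r j t : ℤ) - B) + P * (O + W * (er r : ℤ)
      + ((mr r : ℤ) * (D * (ct r i : ℤ) - N) + (mr r : ℤ) * (D * (ct r j : ℤ) - N)))
      + δ * ((nr r : ℤ) * (if i = j then 1 else 0) - 1) ≤ P * (tq r i j : ℤ) := by
  rcases le_total j i with hji | hij
  · have h1 := nall_true (h r i hr hi) j (Nat.lt_succ_of_le hji)
    rw [Bool.and_eq_true] at h1
    exact g4_ge h1.2
  · have h1 := nall_true (h r j hr hj) i (Nat.lt_succ_of_le hij)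
    rw [Bool.and_eq_true] at h1
    have h3 := g4_ge h1.2
    rw [← Nat.eq_of_beq_eq_true h1.1] at h3
    have : ∑ t ∈ range (kr r), ((l r j t : ℤ) - B) * ((l r i t : ℤ) - B) =
        ∑ t ∈ range (kr r), ((l r i t : ℤ) - B) * ((l r j t : ℤ) - B) :=
      sum_congr rfl fun t _ => mul_comm _ _
    rw [this] at h3
    have h4 : (if j = i then (1 : ℤ) else 0) = if i = j then 1 else 0 := by
      by_cases e : i = j
      · rw [if_pos e, if_pos e.symm]
      · rw [if_neg e, if_neg (Ne.symm e)]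
    rw [h4] at h3
    linarith

theorem final {V : Type} [Fintype V] {E : V → V → V → ℕ} {k : V → ℕ} {m : Bool} (hS : St m E k)
    (tq l : ℕ → ℕ → ℕ → ℕ) (rho : ℕ → ℕ) (pc : ℕ → ℕ → ℕ) (q2 l2 : ℕ → ℕ → ℕ → ℕ)
    (kr er mr nr : ℕ → ℕ) (ct : ℕ → ℕ → ℕ) (B O4 O2 W D N P δ R K KM C : ℕ) (hP : 0 < P)
    (hmap : mapck m R rho pc nr er ct = true)
    (hrows : Rows tq l kr er mr nr ct B O4 W D N P δ R)
    (hkr : ∀ r < R, kr r ≤ KM)
    (h2 : ck2 q2 l2 K B O2 = true)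
    (hs4 : Sym4 m (fun c i j => tq (rho c) (pc c i) (pc c j)))
    (hs2 : sym2 q2 = true)
    (hc : Reps m (fun c i j => tq (rho c) (pc c i) (pc c j)) q2 C)
    (hN : (N : ℤ) * (Fintype.card V : ℤ) ≤ D * ∑ x, (k x : ℤ)) :
    60 * (W : ℤ) * SE E ≤ ((C : ℤ) - (15 * O4 + 45 * O2)) * (Fintype.card V : ℤ) ^ 3 := by
  refine bound' E k KM K C (fun c i j => tq (rho c) (pc c i) (pc c j)) q2 O4 O2 W D N
    (fun a b c d t e => if t < kr (rho (cd8 (k a) (k b) (k c) (k d) (E a b c) (E a b d) (E a c d) (E b c d))) then (l (rho (cd8 (k a) (k b) (k c) (k d) (E a b c) (E a b d) (E a c d) (E b c d))) (pc (cd8 (k a) (k b) (k c) (k d) (E a b c) (E a b d) (E a c d) (E b c d)) (cd7 (k e) (E a b e) (E a c e) (E b c e) (E a d e) (E b d e) (E c d e))) t : ℤ) - B else 0)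
    (fun a b c d => (mr (rho (cd8 (k a) (k b) (k c) (k d) (E a b c) (E a b d) (E a c d) (E b c d))) : ℤ)) (fun a b c d => Int.natCast_nonneg _) hN
    (P : ℤ) (δ : ℤ) (by exact_mod_cast hP) (Int.natCast_nonneg _) (fun a b c d => nr (rho (cd8 (k a) (k b) (k c) (k d) (E a b c) (E a b d) (E a c d) (E b c d))))
    (fun a b c d e => pc (cd8 (k a) (k b) (k c) (k d) (E a b c) (E a b d) (E a c d) (E b c d)) (cd7 (k e) (E a b e) (E a c e) (E b c e) (E a d e) (E b d e) (E c d e))) (fun a b c d e => (map_all hS hmap a b c d e).2.2.1) ?_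
    (fun a b s c d => (l2 (cd2 (k a) (k b)) (cd6 (k c) (k d) (E a b c) (E a b d) (E a c d) (E b c d)) s : ℤ) - B)
    ?_ (leaf_all hS hs4 hs2 hc)
  · intro a b c d e f
    obtain ⟨r1, r2, r3, r4⟩ := map_all hS hmap a b c d e
    obtain ⟨_, _, s3, s4⟩ := map_all hS hmap a b c d f
    have h := rows_ge hrows r1 r3 s3
    rw [r4, s4, r2] at h
    have e1 : ∀ (q : ℕ) (hq : q ≤ KM) (u v : ℕ → ℤ), ∑ t ∈ range KM, (if t < q then u t else 0) * (if t < q then v t else 0)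
        = ∑ t ∈ range q, u t * v t := by
      intro q hq u v
      rw [← sum_subset (range_subset_range.mpr hq)]
      · refine sum_congr rfl fun t ht => ?_
        rw [mem_range] at ht
        rw [if_pos ht, if_pos ht]
      · intro t _ ht
        rw [mem_range] at ht
        rw [if_neg ht, zero_mul]
    rw [e1 _ (hkr _ r1)]
    unfold F4
    push_cast at h
    have h5 : (E a b c : ℤ) + ((E a b d : ℤ) + ((E a c d : ℤ) + (E b c d : ℤ))) =
      (E a b c : ℤ) + E a b d + E a c d + E b c d := by ring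
    rw [h5] at h
    exact h
  · intro a b c d e f
    have hb := hS.sy.b
    have hk := hS.cb
    exact g2_eq (nall_true (nall_true (nall_true h2 _ (cd2_lt (hk a) (hk b))) _
      (cd6_lt (hk c) (hk d) (hb a b c) (hb a b d) (hb a c d) (hb b c d))) _
      (cd6_lt (hk e) (hk f) (hb a b e) (hb a b f) (hb a e f) (hb b e f)))

end Pool.Agent.N444.Two
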