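import Pool.Agent.H122R2.N6.Inv

/-! Six-vertex flags for 3-graphs with vertices of two colours: codes and the leaf functional. -/

set_option autoImplicit false
set_option maxRecDepth 100000

namespace Pool.Agent.N444.Two
open Pool.Agent.H122R2.N6

def cd2 (x y : ℕ) : ℕ := Nat.add x (Nat.mul 2 y)
/-- code of a type: colours of four vertices, four triples -/
def cd8 (x y z w p q r s : ℕ) : ℕ := Nat.add x (Nat.add (Nat.mul 2 y) (Nat.add (Nat.mul 4 z)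
  (Nat.add (Nat.mul 8 w) (Nat.add (Nat.mul 16 p) (Nat.add (Nat.mul 32 q) (Nat.add (Nat.mul 64 r) (Nat.mul 128 s)))))))
/-- code of a flag: colour of the fifth vertex, six triples -/
def cd7 (x p q r s t u : ℕ) : ℕ := Nat.add x (Nat.add (Nat.mul 2 p) (Nat.add (Nat.mul 4 q)
  (Nat.add (Nat.mul 8 r) (Nat.add (Nat.mul 16 s) (Nat.add (Nat.mul 32 t) (Nat.mul 64 u))))))

/-- the triple is not allowed: it is an edge inside the class `1` (or inside the class `0`, if `m`) -/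
def bd (m : Bool) (x y z b : ℕ) : Bool :=
  or (k4b x y z b) (and m (k4b (Nat.sub 1 x) (Nat.sub 1 y) (Nat.sub 1 z) b))

def leaf4 (q4 : ℕ → ℕ → ℕ → ℕ) (c0 c1 c2 c3 c4 c5 b012 b013 b023 b123 b014 b024 b124 b034 b134 b234 b015 b025 b125 b035 b135 b235 b045 b145 b245 b345 : ℕ) : ℕ :=
  (Nat.add (q4 (cd8 c0 c1 c2 c3 b012 b013 b023 b123) (cd7 c4 b014 b024 b124 b034 b134 b234) (cd7 c5 b015 b025 b125 b035 b135 b235))
    (Nat.add (q4 (cd8 c0 c1 c2 c4 b012 b014 b024 b124) (cd7 c3 b013 b023 b123 b034 b134 b234) (cd7 c5 b015 b025 b125 b045 b145 b245))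
    (Nat.add (q4 (cd8 c0 c1 c2 c5 b012 b015 b025 b125) (cd7 c3 b013 b023 b123 b035 b135 b235) (cd7 c4 b014 b024 b124 b045 b145 b245))
    (Nat.add (q4 (cd8 c0 c1 c3 c4 b013 b014 b034 b134) (cd7 c2 b012 b023 b123 b024 b124 b234) (cd7 c5 b015 b035 b135 b045 b145 b345))
    (Nat.add (q4 (cd8 c0 c1 c3 c5 b013 b015 b035 b135) (cd7 c2 b012 b023 b123 b025 b125 b235) (cd7 c4 b014 b034 b134 b045 b145 b345))
    (Nat.add (q4 (cd8 c0 c1 c4 c5 b014 b015 b045 b145) (cd7 c2 b012 b024 b124 b025 b125 b245) (cd7 c3 b013 b034 b134 b035 b135 b345))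
    (Nat.add (q4 (cd8 c0 c2 c3 c4 b023 b024 b034 b234) (cd7 c1 b012 b013 b123 b014 b124 b134) (cd7 c5 b025 b035 b235 b045 b245 b345))
    (Nat.add (q4 (cd8 c0 c2 c3 c5 b023 b025 b035 b235) (cd7 c1 b012 b013 b123 b015 b125 b135) (cd7 c4 b024 b034 b234 b045 b245 b345))
    (Nat.add (q4 (cd8 c0 c2 c4 c5 b024 b025 b045 b245) (cd7 c1 b012 b014 b124 b015 b125 b145) (cd7 c3 b023 b034 b234 b035 b235 b345))
    (Nat.add (q4 (cd8 c0 c3 c4 c5 b034 b035 b045 b345) (cd7 c1 b013 b014 b134 b015 b135 b145) (cd7 c2 b023 b024 b234 b025 b235 b245))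
    (Nat.add (q4 (cd8 c1 c2 c3 c4 b123 b124 b134 b234) (cd7 c0 b012 b013 b023 b014 b024 b034) (cd7 c5 b125 b135 b235 b145 b245 b345))
    (Nat.add (q4 (cd8 c1 c2 c3 c5 b123 b125 b135 b235) (cd7 c0 b012 b013 b023 b015 b025 b035) (cd7 c4 b124 b134 b234 b145 b245 b345))
    (Nat.add (q4 (cd8 c1 c2 c4 c5 b124 b125 b145 b245) (cd7 c0 b012 b014 b024 b015 b025 b045) (cd7 c3 b123 b134 b234 b135 b235 b345))
    (Nat.add (q4 (cd8 c1 c3 c4 c5 b134 b135 b145 b345) (cd7 c0 b013 b014 b034 b015 b035 b045) (cd7 c2 b123 b124 b234 b125 b235 b245))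
    (q4 (cd8 c2 c3 c4 c5 b234 b235 b245 b345) (cd7 c0 b023 b024 b034 b025 b035 b045) (cd7 c1 b123 b124 b134 b125 b135 b145))))))))))))))))

def leaf2 (q2 : ℕ → ℕ → ℕ → ℕ) (c0 c1 c2 c3 c4 c5 b012 b013 b023 b123 b014 b024 b124 b034 b134 b234 b015 b025 b125 b035 b135 b235 b045 b145 b245 b345 : ℕ) : ℕ :=
  (Nat.add (q2 (cd2 c0 c1) (cd6 c2 c3 b012 b013 b023 b123) (cd6 c4 c5 b014 b015 b045 b145))
    (Nat.add (q2 (cd2 c0 c1) (cd6 c2 c4 b012 b014 b024 b124) (cd6 c3 c5 b013 b015 b035 b135))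
    (Nat.add (q2 (cd2 c0 c1) (cd6 c2 c5 b012 b015 b025 b125) (cd6 c3 c4 b013 b014 b034 b134))
    (Nat.add (q2 (cd2 c0 c2) (cd6 c1 c3 b012 b023 b013 b123) (cd6 c4 c5 b024 b025 b045 b245))
    (Nat.add (q2 (cd2 c0 c2) (cd6 c1 c4 b012 b024 b014 b124) (cd6 c3 c5 b023 b025 b035 b235))
    (Nat.add (q2 (cd2 c0 c2) (cd6 c1 c5 b012 b025 b015 b125) (cd6 c3 c4 b023 b024 b034 b234))
    (Nat.add (q2 (cd2 c0 c3) (cd6 c1 c2 b013 b023 b012 b123) (cd6 c4 c5 b034 b035 b045 b345))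
    (Nat.add (q2 (cd2 c0 c3) (cd6 c1 c4 b013 b034 b014 b134) (cd6 c2 c5 b023 b035 b025 b235))
    (Nat.add (q2 (cd2 c0 c3) (cd6 c1 c5 b013 b035 b015 b135) (cd6 c2 c4 b023 b034 b024 b234))
    (Nat.add (q2 (cd2 c0 c4) (cd6 c1 c2 b014 b024 b012 b124) (cd6 c3 c5 b034 b045 b035 b345))
    (Nat.add (q2 (cd2 c0 c4) (cd6 c1 c3 b014 b034 b013 b134) (cd6 c2 c5 b024 b045 b025 b245))
    (Nat.add (q2 (cd2 c0 c4) (cd6 c1 c5 b014 b045 b015 b145) (cd6 c2 c3 b024 b034 b023 b234))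
    (Nat.add (q2 (cd2 c0 c5) (cd6 c1 c2 b015 b025 b012 b125) (cd6 c3 c4 b035 b045 b034 b345))
    (Nat.add (q2 (cd2 c0 c5) (cd6 c1 c3 b015 b035 b013 b135) (cd6 c2 c4 b025 b045 b024 b245))
    (Nat.add (q2 (cd2 c0 c5) (cd6 c1 c4 b015 b045 b014 b145) (cd6 c2 c3 b025 b035 b023 b235))
    (Nat.add (q2 (cd2 c1 c2) (cd6 c0 c3 b012 b123 b013 b023) (cd6 c4 c5 b124 b125 b145 b245))
    (Nat.add (q2 (cd2 c1 c2) (cd6 c0 c4 b012 b124 b014 b024) (cd6 c3 c5 b123 b125 b135 b235))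
    (Nat.add (q2 (cd2 c1 c2) (cd6 c0 c5 b012 b125 b015 b025) (cd6 c3 c4 b123 b124 b134 b234))
    (Nat.add (q2 (cd2 c1 c3) (cd6 c0 c2 b013 b123 b012 b023) (cd6 c4 c5 b134 b135 b145 b345))
    (Nat.add (q2 (cd2 c1 c3) (cd6 c0 c4 b013 b134 b014 b034) (cd6 c2 c5 b123 b135 b125 b235))
    (Nat.add (q2 (cd2 c1 c3) (cd6 c0 c5 b013 b135 b015 b035) (cd6 c2 c4 b123 b134 b124 b234))
    (Nat.add (q2 (cd2 c1 c4) (cd6 c0 c2 b014 b124 b012 b024) (cd6 c3 c5 b134 b145 b135 b345))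
    (Nat.add (q2 (cd2 c1 c4) (cd6 c0 c3 b014 b134 b013 b034) (cd6 c2 c5 b124 b145 b125 b245))
    (Nat.add (q2 (cd2 c1 c4) (cd6 c0 c5 b014 b145 b015 b045) (cd6 c2 c3 b124 b134 b123 b234))
    (Nat.add (q2 (cd2 c1 c5) (cd6 c0 c2 b015 b125 b012 b025) (cd6 c3 c4 b135 b145 b134 b345))
    (Nat.add (q2 (cd2 c1 c5) (cd6 c0 c3 b015 b135 b013 b035) (cd6 c2 c4 b125 b145 b124 b245))
    (Nat.add (q2 (cd2 c1 c5) (cd6 c0 c4 b015 b145 b014 b045) (cd6 c2 c3 b125 b135 b123 b235))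
    (Nat.add (q2 (cd2 c2 c3) (cd6 c0 c1 b023 b123 b012 b013) (cd6 c4 c5 b234 b235 b245 b345))
    (Nat.add (q2 (cd2 c2 c3) (cd6 c0 c4 b023 b234 b024 b034) (cd6 c1 c5 b123 b235 b125 b135))
    (Nat.add (q2 (cd2 c2 c3) (cd6 c0 c5 b023 b235 b025 b035) (cd6 c1 c4 b123 b234 b124 b134))
    (Nat.add (q2 (cd2 c2 c4) (cd6 c0 c1 b024 b124 b012 b014) (cd6 c3 c5 b234 b245 b235 b345))
    (Nat.add (q2 (cd2 c2 c4) (cd6 c0 c3 b024 b234 b023 b034) (cd6 c1 c5 b124 b245 b125 b145))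
    (Nat.add (q2 (cd2 c2 c4) (cd6 c0 c5 b024 b245 b025 b045) (cd6 c1 c3 b124 b234 b123 b134))
    (Nat.add (q2 (cd2 c2 c5) (cd6 c0 c1 b025 b125 b012 b015) (cd6 c3 c4 b235 b245 b234 b345))
    (Nat.add (q2 (cd2 c2 c5) (cd6 c0 c3 b025 b235 b023 b035) (cd6 c1 c4 b125 b245 b124 b145))
    (Nat.add (q2 (cd2 c2 c5) (cd6 c0 c4 b025 b245 b024 b045) (cd6 c1 c3 b125 b235 b123 b135))
    (Nat.add (q2 (cd2 c3 c4) (cd6 c0 c1 b034 b134 b013 b014) (cd6 c2 c5 b234 b345 b235 b245))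
    (Nat.add (q2 (cd2 c3 c4) (cd6 c0 c2 b034 b234 b023 b024) (cd6 c1 c5 b134 b345 b135 b145))
    (Nat.add (q2 (cd2 c3 c4) (cd6 c0 c5 b034 b345 b035 b045) (cd6 c1 c2 b134 b234 b123 b124))
    (Nat.add (q2 (cd2 c3 c5) (cd6 c0 c1 b035 b135 b013 b015) (cd6 c2 c4 b235 b345 b234 b245))
    (Nat.add (q2 (cd2 c3 c5) (cd6 c0 c2 b035 b235 b023 b025) (cd6 c1 c4 b135 b345 b134 b145))
    (Nat.add (q2 (cd2 c3 c5) (cd6 c0 c4 b035 b345 b034 b045) (cd6 c1 c2 b135 b235 b123 b125))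
    (Nat.add (q2 (cd2 c4 c5) (cd6 c0 c1 b045 b145 b014 b015) (cd6 c2 c3 b245 b345 b234 b235))
    (Nat.add (q2 (cd2 c4 c5) (cd6 c0 c2 b045 b245 b024 b025) (cd6 c1 c3 b145 b345 b134 b135))
    (q2 (cd2 c4 c5) (cd6 c0 c3 b045 b345 b034 b035) (cd6 c1 c2 b145 b245 b124 b125))))))))))))))))))))))))))))))))))))))))))))))

section
variable {V : Type} (E : V → V → V → ℕ) (k : V → ℕ)
def ty4 (a b c d : V) : ℕ := cd8 (k a) (k b) (k c) (k d) (E a b c) (E a b d) (E a c d) (E b c d)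
def fl4 (a b c d e : V) : ℕ :=
  cd7 (k e) (E a b e) (E a c e) (E b c e) (E a d e) (E b d e) (E c d e)
def F4 (q4 : ℕ → ℕ → ℕ → ℕ) (a b c d e f : V) : ℕ :=
  q4 (cd8 (k a) (k b) (k c) (k d) (E a b c) (E a b d) (E a c d) (E b c d))
    (cd7 (k e) (E a b e) (E a c e) (E b c e) (E a d e) (E b d e) (E c d e))
    (cd7 (k f) (E a b f) (E a c f) (E b c f) (E a d f) (E b d f) (E c d f))
def F2 (q2 : ℕ → ℕ → ℕ → ℕ) (a b c d e f : V) : ℕ :=
  q2 (cd2 (k a) (k b)) (cd6 (k c) (k d) (E a b c) (E a b d) (E a c d) (E b c d))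
    (cd6 (k e) (k f) (E a b e) (E a b f) (E a e f) (E b e f))

def L4 (q4 : ℕ → ℕ → ℕ → ℕ) (a b c d e f : V) : ℕ :=
  (F4 E k q4 a b c d e f +
    (F4 E k q4 a b c e d f +
    (F4 E k q4 a b c f d e +
    (F4 E k q4 a b d e c f +
    (F4 E k q4 a b d f c e +
    (F4 E k q4 a b e f c d +
    (F4 E k q4 a c d e b f +
    (F4 E k q4 a c d f b e +
    (F4 E k q4 a c e f b d +
    (F4 E k q4 a d e f b c +
    (F4 E k q4 b c d e a f +
    (F4 E k q4 b c d f a e +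
    (F4 E k q4 b c e f a d +
    (F4 E k q4 b d e f a c +
    F4 E k q4 c d e f a b))))))))))))))

def L2 (q2 : ℕ → ℕ → ℕ → ℕ) (a b c d e f : V) : ℕ :=
  (F2 E k q2 a b c d e f +
    (F2 E k q2 a b c e d f +
    (F2 E k q2 a b c f d e +
    (F2 E k q2 a c b d e f +
    (F2 E k q2 a c b e d f +
    (F2 E k q2 a c b f d e +
    (F2 E k q2 a d b c e f +
    (F2 E k q2 a d b e c f +
    (F2 E k q2 a d b f c e +
    (F2 E k q2 a e b c d f +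
    (F2 E k q2 a e b d c f +
    (F2 E k q2 a e b f c d +
    (F2 E k q2 a f b c d e +
    (F2 E k q2 a f b d c e +
    (F2 E k q2 a f b e c d +
    (F2 E k q2 b c a d e f +
    (F2 E k q2 b c a e d f +
    (F2 E k q2 b c a f d e +
    (F2 E k q2 b d a c e f +
    (F2 E k q2 b d a e c f +
    (F2 E k q2 b d a f c e +
    (F2 E k q2 b e a c d f +
    (F2 E k q2 b e a d c f +
    (F2 E k q2 b e a f c d +
    (F2 E k q2 b f a c d e +
    (F2 E k q2 b f a d c e +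
    (F2 E k q2 b f a e c d +
    (F2 E k q2 c d a b e f +
    (F2 E k q2 c d a e b f +
    (F2 E k q2 c d a f b e +
    (F2 E k q2 c e a b d f +
    (F2 E k q2 c e a d b f +
    (F2 E k q2 c e a f b d +
    (F2 E k q2 c f a b d e +
    (F2 E k q2 c f a d b e +
    (F2 E k q2 c f a e b d +
    (F2 E k q2 d e a b c f +
    (F2 E k q2 d e a c b f +
    (F2 E k q2 d e a f b c +
    (F2 E k q2 d f a b c e +
    (F2 E k q2 d f a c b e +
    (F2 E k q2 d f a e b c +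
    (F2 E k q2 e f a b c d +
    (F2 E k q2 e f a c b d +
    F2 E k q2 e f a d b c))))))))))))))))))))))))))))))))))))))))))))

def K4l (q4 : ℕ → ℕ → ℕ → ℕ) (a b c d e f : V) : ℕ :=
  leaf4 q4 (k a) (k b) (k c) (k d) (k e) (k f) (E a b c) (E a b d) (E a c d) (E b c d) (E a b e) (E a c e) (E b c e) (E a d e) (E b d e) (E c d e) (E a b f) (E a c f) (E b c f) (E a d f) (E b d f) (E c d f) (E a e f) (E b e f) (E c e f) (E d e f)

def K2l (q2 : ℕ → ℕ → ℕ → ℕ) (a b c d e f : V) : ℕ :=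
  leaf2 q2 (k a) (k b) (k c) (k d) (k e) (k f) (E a b c) (E a b d) (E a c d) (E b c d) (E a b e) (E a c e) (E b c e) (E a d e) (E b d e) (E c d e) (E a b f) (E a c f) (E b c f) (E a d f) (E b d f) (E c d f) (E a e f) (E b e f) (E c e f) (E d e f)

end

/-- the leaf inequality for all extensions of a given structure on the first five vertices -/
def chk (m : Bool) (q4 : ℕ → ℕ → ℕ → ℕ) (q2 : ℕ → ℕ → ℕ → ℕ) (C : ℕ) (c0 c1 c2 c3 c4 b012 b013 b023 b123 b014 b024 b124 b034 b134 b234 : ℕ) : Bool :=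
  B2 fun c5 => B2 fun b015 => or (bd m c0 c1 c5 b015) (B2 fun b025 => or (bd m c0 c2 c5 b025) (B2 fun b125 => or (bd m c1 c2 c5 b125) (or (k4b b012 b015 b025 b125) (B2 fun b035 => or (bd m c0 c3 c5 b035) (B2 fun b135 => or (bd m c1 c3 c5 b135) (or (k4b b013 b015 b035 b135) (B2 fun b235 => or (bd m c2 c3 c5 b235) (or (k4b b023 b025 b035 b235) (or (k4b b123 b125 b135 b235) (B2 fun b045 => or (bd m c0 c4 c5 b045) (B2 fun b145 => or (bd m c1 c4 c5 b145) (or (k4b b014 b015 b045 b145) (B2 fun b245 => or (bd m c2 c4 c5 b245) (or (k4b b024 b025 b045 b245) (or (k4b b124 b125 b145 b245) (B2 fun b345 => or (bd m c3 c4 c5 b345) (or (k4b b034 b035 b045 b345) (or (k4b b134 b135 b145 b345) (or (k4b b234 b235 b245 b345) (Nat.ble (Nat.add (leaf4 q4 c0 c1 c2 c3 c4 c5 b012 b013 b023 b123 b014 b024 b124 b034 b134 b234 b015 b025 b125 b035 b135 b235 b045 b145 b245 b345) (leaf2 q2 c0 c1 c2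 c3 c4 c5 b012 b013 b023 b123 b014 b024 b124 b034 b134 b234 b015 b025 b125 b035 b135 b235 b045 b145 b245 b345)) C))))))))))))))))))))

def five (m : Bool) (c0 c1 c2 c3 c4 b012 b013 b023 b123 b014 b024 b124 b034 b134 b234 : ℕ) : Bool := or (bd m c0 c1 c2 b012) (or (bd m c0 c1 c3 b013) (or (bd m c0 c2 c3 b023) (or (bd m c1 c2 c3 b123) (or (bd m c0 c1 c4 b014) (or (bd m c0 c2 c4 b024) (or (bd m c1 c2 c4 b124) (or (bd m c0 c3 c4 b034) (or (bd m c1 c3 c4 b134) (or (bd m c2 c3 c4 b234) (or (k4b b012 b013 b023 b123) (or (k4b b012 b014 b024 b124) (or (k4b b013 b014 b034 b134) (or (k4b b023 b024 b034 b234) (k4b b123 b124 b134 b234))))))))))))))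

end Pool.Agent.N444.Two
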