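import Pool.Agent.N444.Two.Defs

set_option autoImplicit false
set_option maxRecDepth 100000

namespace Pool.Agent.N444.Two
open Pool.Agent.H122R2.N6

/-- the table is invariant under relabelling of the roots and exchange of the flags -/
def sym4 (m : Bool) (q4 : ℕ → ℕ → ℕ → ℕ) (c0 c1 c2 c3 p0 p1 p2 p3 : ℕ) : Bool := or (bd m c0 c1 c2 p0) (or (bd m c0 c1 c3 p1) (or (bd m c0 c2 c3 p2) (or (bd m c1 c2 c3 p3) (or (k4b p0 p1 p2 p3) (B2 fun ci => B2 fun i0 => or (bd m c0 c1 ci i0) (B2 fun i1 => or (bd m c0 c2 ci i1) (B2 fun i2 => or (bd m c1 c2 ci i2) (or (k4b p0 i0 i1 i2) (B2 fun i3 => or (bd m c0 c3 ci i3) (B2 fun i4 => or (bd m c1 c3 ci i4) (or (k4b p1 i0 i3 i4) (B2 fun i5 => or (bd m c2 c3 ci i5) (or (k4b p2 i1 i3 i5) (or (k4b p3 i2 i4 i5) (B2 fun cj => B2 fun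 j0 => or (bd m c0 c1 cj j0) (B2 fun j1 => or (bd m c0 c2 cj j1) (B2 fun j2 => or (bd m c1 c2 cj j2) (or (k4b p0 j0 j1 j2) (B2 fun j3 => or (bd m c0 c3 cj j3) (B2 fun j4 => or (bd m c1 c3 cj j4) (or (k4b p1 j0 j3 j4) (B2 fun j5 => or (bd m c2 c3 cj j5) (or (k4b p2 j1 j3 j5) (or (k4b p3 j2 j4 j5) ((and (Nat.beq (q4 (cd8 c1 c0 c2 c3 p0 p1 p3 p2) (cd7 ci i0 i2 i1 i4 i3 i5) (cd7 cj j0 j2 j1 j4 j3 j5)) (q4 (cd8 c0 c1 c2 c3 p0 p1 p2 p3) (cd7 ci i0 i1 i2 i3 i4 i5) (cd7 cj j0 j1 j2 j3 j4 j5))) (and (Nat.beq (q4 (cd8 c0 c2 c1 c3 p0 p2 p1 p3) (cd7 ci i1 i0 i2 i3 i5 i4) (cd7 cj j1 j0 j2 j3 j5 j4)) (q4 (cd8 c0 c1 c2 c3 p0 p1 p2 p3) (cd7 ci i0 i1 i2 i3 i4 i5) (cd7 cj j0 j1 j2 j3 j4 j5))) (and (Nat.beq (q4 (cd8 c0 c1 c3 c2 p1 p0 p2 p3) (cd7 ci i0 i3 i4 i1 i2 i5) (cd7 cj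 j0 j3 j4 j1 j2 j5)) (q4 (cd8 c0 c1 c2 c3 p0 p1 p2 p3) (cd7 ci i0 i1 i2 i3 i4 i5) (cd7 cj j0 j1 j2 j3 j4 j5))) (Nat.beq (q4 (cd8 c0 c1 c2 c3 p0 p1 p2 p3) (cd7 cj j0 j1 j2 j3 j4 j5) (cd7 ci i0 i1 i2 i3 i4 i5)) (q4 (cd8 c0 c1 c2 c3 p0 p1 p2 p3) (cd7 ci i0 i1 i2 i3 i4 i5) (cd7 cj j0 j1 j2 j3 j4 j5)))))))))))))))))))))))))))))))

def sym2 (q2 : ℕ → ℕ → ℕ → ℕ) : Bool := B2 fun r => B2 fun s => B2 fun ci => B2 fun di => B2 fun i0 => B2 fun i1 => B2 fun i2 => B2 fun i3 => B2 fun cj => B2 fun dj => B2 fun j0 => B2 fun j1 => B2 fun j2 => B2 fun j3 => and (Nat.beq (q2 (cd2 s r) (cd6 ci di i0 i1 i3 i2) (cd6 cj dj j0 j1 j3 j2)) (q2 (cd2 r s) (cd6 ci di i0 i1 i2 i3) (cd6 cj dj j0 j1 j2 j3))) (and (Nat.beq (q2 (cd2 r s) (cd6 di ci i1 i0 i2 i3) (cd6 cj dj j0 j1 j2 j3)) (q2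 (cd2 r s) (cd6 ci di i0 i1 i2 i3) (cd6 cj dj j0 j1 j2 j3))) (Nat.beq (q2 (cd2 r s) (cd6 cj dj j0 j1 j2 j3) (cd6 ci di i0 i1 i2 i3)) (q2 (cd2 r s) (cd6 ci di i0 i1 i2 i3) (cd6 cj dj j0 j1 j2 j3))))

end Pool.Agent.N444.Two
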