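import Pool.Agent.N444.Two.Walk
import Pool.Agent.N444.Two.SymDefs
import Pool.Agent.H122R2.N6.Leaf

set_option autoImplicit false
set_option maxRecDepth 100000
set_option maxHeartbeats 4000000
open Finset

namespace Pool.Agent.N444.Two
open Pool.Agent.H122R2.N6 (Bt Sy NoK4 B2 k4b B2_true or_false_left cd6)

/-- a `K_4`-free 3-graph and a colouring of its vertices such that the class `1` (and the class `0`,
if `m`) is independent -/
structure St (m : Bool) {V : Type} (E : V → V → V → ℕ) (k : V → ℕ) : Prop where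
  sy : Sy E
  cb : ∀ x, Bt (k x)
  hK : NoK4 E
  hi : ∀ x y z, bd m (k x) (k y) (k z) (E x y z) = false

section
variable {V : Type} {E : V → V → V → ℕ} {k : V → ℕ} {m : Bool}

def Sym4 (m : Bool) (q4 : ℕ → ℕ → ℕ → ℕ) : Prop :=
  ∀ c0 c1 c2 c3 p0 p1 p2 p3 : ℕ, Bt c0 → Bt c1 → Bt c2 → Bt c3 → Bt p0 → Bt p1 → Bt p2 → Bt p3 →
    sym4 m q4 c0 c1 c2 c3 p0 p1 p2 p3 = true

theorem sym4_all (hS : St m E k) {q4 : ℕ → ℕ → ℕ → ℕ} (hs : Sym4 m q4) (a b c d e f : V) :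
    (q4 (cd8 (k b) (k a) (k c) (k d) (E a b c) (E a b d) (E b c d) (E a c d)) (cd7 (k e) (E a b e) (E b c e) (E a c e) (E b d e) (E a d e) (E c d e)) (cd7 (k f) (E a b f) (E b c f) (E a c f) (E b d f) (E a d f) (E c d f)) = q4 (cd8 (k a) (k b) (k c) (k d) (E a b c) (E a b d) (E a c d) (E b c d)) (cd7 (k e) (E a b e) (E a c e) (E b c e) (E a d e) (E b d e) (E c d e)) (cd7 (k f) (E a b f) (E a c f) (E b c f) (E a d f) (E b d f) (E c d f)) ∧ q4 (cd8 (k a) (k c) (k b) (k d) (E a b c) (E a c d) (E a b d) (E b c d)) (cd7 (k e) (E a c e) (E a b e) (E b c e) (E a d e) (E c d e) (E b d e)) (cd7 (k f) (E a c f) (E a b f) (E b c f) (E a d f) (E c d f) (E b d f)) = q4 (cd8 (k a) (k b) (k c) (k d) (E a b c) (E a b d) (E a c d) (E b c d)) (cd7 (k e) (E a b e) (E a c e) (E b c e) (E a d e) (E b d e) (E c d e)) (cd7 (k f) (E a b f) (E a c f) (E b c f) (E a d f) (E b d f) (E c d f)) ∧ q4 (cd8 (k a) (k b)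 (k d) (k c) (E a b d) (E a b c) (E a c d) (E b c d)) (cd7 (k e) (E a b e) (E a d e) (E b d e) (E a c e) (E b c e) (E c d e)) (cd7 (k f) (E a b f) (E a d f) (E b d f) (E a c f) (E b c f) (E c d f)) = q4 (cd8 (k a) (k b) (k c) (k d) (E a b c) (E a b d) (E a c d) (E b c d)) (cd7 (k e) (E a b e) (E a c e) (E b c e) (E a d e) (E b d e) (E c d e)) (cd7 (k f) (E a b f) (E a c f) (E b c f) (E a d f) (E b d f) (E c d f)) ∧ q4 (cd8 (k a) (k b) (k c) (k d) (E a b c) (E a b d) (E a c d) (E b c d)) (cd7 (k f) (E a b f) (E a c f) (E b c f) (E a d f) (E b d f) (E c d f)) (cd7 (k e) (E a b e) (E a c e) (E b c e) (E a d e) (E b d e) (E c d e)) = q4 (cd8 (k a) (k b) (k c) (k d) (E a b c) (E a b d) (E a c d) (E b c d)) (cd7 (k e) (E a b e) (E a c e) (E b c e) (E a d e) (E b d e) (E c d e)) (cd7 (k f) (E a b f) (E a c f) (E b c f) (E a d f) (E b d f) (E c d f))) := by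
  have h := hs (k a) (k b) (k c) (k d) _ _ _ _ (hS.cb a) (hS.cb b) (hS.cb c) (hS.cb d) (hS.sy.b a b c)
    (hS.sy.b a b d) (hS.sy.b a c d) (hS.sy.b b c d)
  have h2 := (or_false_left (or_false_left (or_false_left (B2_true (or_false_left (or_false_left (B2_true (or_false_left (B2_true (or_false_left (or_false_left (B2_true (or_false_left (B2_true (or_false_left (B2_true (B2_true (or_false_left (or_false_left (or_false_left (B2_true (or_false_left (or_false_left (B2_true (or_false_left (B2_true (or_false_left (or_false_left (B2_true (or_false_left (B2_true (or_false_left (B2_true (B2_true (or_false_left (or_false_left (or_false_left (or_false_left (or_false_left h (hS.hi a b c)) (hS.hi a b d)) (hS.hi a c d)) (hS.hi b c d)) (hS.hK a b c d)) (hS.cb e)) (hS.sy.b a b e)) (hS.hi a b e)) (hS.sy.b a c e)) (hS.hi a c e)) (hS.sy.b b c e)) (hS.hi b c e)) (hS.hK a b c e)) (hS.sy.b a d e)) (hS.hi a d e))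 (hS.sy.b b d e)) (hS.hi b d e)) (hS.hK a b d e)) (hS.sy.b c d e)) (hS.hi c d e)) (hS.hK a c d e)) (hS.hK b c d e)) (hS.cb f)) (hS.sy.b a b f)) (hS.hi a b f)) (hS.sy.b a c f)) (hS.hi a c f)) (hS.sy.b b c f)) (hS.hi b c f)) (hS.hK a b c f)) (hS.sy.b a d f)) (hS.hi a d f)) (hS.sy.b b d f)) (hS.hi b d f)) (hS.hK a b d f)) (hS.sy.b c d f)) (hS.hi c d f)) (hS.hK a c d f)) (hS.hK b c d f))
  simp only [Bool.and_eq_true] at h2
  exact ⟨Nat.eq_of_beq_eq_true h2.1, Nat.eq_of_beq_eq_true h2.2.1, Nat.eq_of_beq_eq_true h2.2.2.1,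
    Nat.eq_of_beq_eq_true h2.2.2.2⟩

theorem sym2_all {q2 : ℕ → ℕ → ℕ → ℕ} (hs : sym2 q2 = true) (r s ci di i0 i1 i2 i3 cj dj j0 j1 j2 j3 : ℕ)
    (hr : Bt r) (hss : Bt s) (hci : Bt ci) (hdi : Bt di) (hi0 : Bt i0) (hi1 : Bt i1) (hi2 : Bt i2) (hi3 : Bt i3)
    (hcj : Bt cj) (hdj : Bt dj) (hj0 : Bt j0) (hj1 : Bt j1) (hj2 : Bt j2) (hj3 : Bt j3) :
    (q2 (cd2 s r) (cd6 ci di i0 i1 i3 i2) (cd6 cj dj j0 j1 j3 j2) = q2 (cd2 r s) (cd6 ci di i0 i1 i2 i3) (cd6 cj dj j0 j1 j2 j3)) ∧ (q2 (cd2 r s) (cd6 di ci i1 i0 i2 i3) (cd6 cj dj j0 j1 j2 j3) = q2 (cd2 r s) (cd6 ci di i0 i1 i2 i3) (cd6 cj dj j0 j1 j2 j3)) ∧ (q2 (cd2 r s) (cd6 cj dj j0 j1 j2 j3) (cd6 ci di i0 i1 i2 i3) = q2 (cd2 r s) (cd6 ci di i0 i1 i2 i3) (cd6 cj dj j0 j1 j2 j3)) := by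
  have h := (B2_true (B2_true (B2_true (B2_true (B2_true (B2_true (B2_true (B2_true (B2_true (B2_true (B2_true (B2_true (B2_true (B2_true hs hr) hss) hci) hdi) hi0) hi1) hi2) hi3) hcj) hdj) hj0) hj1) hj2) hj3)
  simp only [Bool.and_eq_true] at h
  exact ⟨Nat.eq_of_beq_eq_true h.1, Nat.eq_of_beq_eq_true h.2.1, Nat.eq_of_beq_eq_true h.2.2⟩

theorem F4_s1 (hS : St m E k) {q4 : ℕ → ℕ → ℕ → ℕ} (hs : Sym4 m q4) (a b c d e f : V) :
    F4 E k q4 b a c d e f = F4 E k q4 a b c d e f := by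
  have h := (sym4_all hS hs a b c d e f).1
  unfold F4
  rw [← h]
  rw [hS.sy.h213 a b c, hS.sy.h213 a b d, hS.sy.h213 a b e, hS.sy.h213 a b f]

theorem F4_s2 (hS : St m E k) {q4 : ℕ → ℕ → ℕ → ℕ} (hs : Sym4 m q4) (a b c d e f : V) :
    F4 E k q4 a c b d e f = F4 E k q4 a b c d e f := by
  have h := (sym4_all hS hs a b c d e f).2.1
  unfold F4
  rw [← h]
  rw [hS.sy.h132 a b c, hS.sy.h213 b c d, hS.sy.h213 b c e, hS.sy.h213 b c f]

theorem F4_s3 (hS : St m E k) {q4 : ℕ → ℕ → ℕ → ℕ} (hs : Sym4 m q4) (a b c d e f : V) :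
    F4 E k q4 a b d c e f = F4 E k q4 a b c d e f := by
  have h := (sym4_all hS hs a b c d e f).2.2.1
  unfold F4
  rw [← h]
  rw [hS.sy.h132 a c d, hS.sy.h132 b c d, hS.sy.h213 c d e, hS.sy.h213 c d f]

theorem F4_s4 (hS : St m E k) {q4 : ℕ → ℕ → ℕ → ℕ} (hs : Sym4 m q4) (a b c d e f : V) :
    F4 E k q4 a b c d f e = F4 E k q4 a b c d e f := by
  have h := (sym4_all hS hs a b c d e f).2.2.2
  unfold F4
  exact h

theorem F2_s1 (hS : St m E k) {q2 : ℕ → ℕ → ℕ → ℕ} (hs : sym2 q2 = true) (a b c d e f : V) :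
    F2 E k q2 b a c d e f = F2 E k q2 a b c d e f := by
  have h := (sym2_all hs (k a) (k b) (k c) (k d) (E a b c) (E a b d) (E a c d) (E b c d) (k e) (k f) (E a b e) (E a b f) (E a e f) (E b e f)
    (hS.cb _) (hS.cb _) (hS.cb _) (hS.cb _) (hS.sy.b _ _ _) (hS.sy.b _ _ _) (hS.sy.b _ _ _) (hS.sy.b _ _ _) (hS.cb _) (hS.cb _) (hS.sy.b _ _ _) (hS.sy.b _ _ _) (hS.sy.b _ _ _) (hS.sy.b _ _ _)).1
  unfold F2
  rw [← h, hS.sy.h213 a b c, hS.sy.h213 a b d, hS.sy.h213 a b e, hS.sy.h213 a b f]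

theorem F2_s2 (hS : St m E k) {q2 : ℕ → ℕ → ℕ → ℕ} (hs : sym2 q2 = true) (a b c d e f : V) :
    F2 E k q2 a b d c e f = F2 E k q2 a b c d e f := by
  have h := (sym2_all hs (k a) (k b) (k c) (k d) (E a b c) (E a b d) (E a c d) (E b c d) (k e) (k f) (E a b e) (E a b f) (E a e f) (E b e f)
    (hS.cb _) (hS.cb _) (hS.cb _) (hS.cb _) (hS.sy.b _ _ _) (hS.sy.b _ _ _) (hS.sy.b _ _ _) (hS.sy.b _ _ _) (hS.cb _) (hS.cb _) (hS.sy.b _ _ _) (hS.sy.b _ _ _) (hS.sy.b _ _ _) (hS.sy.b _ _ _)).2.1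
  unfold F2
  rw [← h, hS.sy.h132 a c d, hS.sy.h132 b c d]

theorem F2_s3 (hS : St m E k) {q2 : ℕ → ℕ → ℕ → ℕ} (hs : sym2 q2 = true) (a b c d e f : V) :
    F2 E k q2 a b e f c d = F2 E k q2 a b c d e f := by
  have h := (sym2_all hs (k a) (k b) (k c) (k d) (E a b c) (E a b d) (E a c d) (E b c d) (k e) (k f) (E a b e) (E a b f) (E a e f) (E b e f)
    (hS.cb _) (hS.cb _) (hS.cb _) (hS.cb _) (hS.sy.b _ _ _) (hS.sy.b _ _ _) (hS.sy.b _ _ _) (hS.sy.b _ _ _) (hS.cb _) (hS.cb _) (hS.sy.b _ _ _) (hS.sy.b _ _ _) (hS.sy.b _ _ _) (hS.sy.b _ _ _)).2.2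
  unfold F2
  exact h

theorem F2_s4 (hS : St m E k) {q2 : ℕ → ℕ → ℕ → ℕ} (hs : sym2 q2 = true) (a b c d e f : V) :
    F2 E k q2 a b c d f e = F2 E k q2 a b c d e f := by
  rw [← F2_s3 hS hs a b c d f e, F2_s2 hS hs a b e f c d, F2_s3 hS hs a b c d e f]

theorem L4_sw0 (hS : St m E k) {q4 : ℕ → ℕ → ℕ → ℕ} (hs : Sym4 m q4) (a b c d e f : V) :
    L4 E k q4 b a c d e f = L4 E k q4 a b c d e f := by
  unfold L4
  rw [F4_s1 hS hs a b c d e f, F4_s1 hS hs a b c e d f, F4_s1 hS hs a b c f d e, F4_s1 hS hs a b d e c f, F4_s1 hS hs a b d f c e, F4_s1 hS hs a b e f c d, F4_s4 hS hs c d e f a b]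
  ring

theorem L2_sw0 (hS : St m E k) {q2 : ℕ → ℕ → ℕ → ℕ} (hs : sym2 q2 = true) (a b c d e f : V) :
    L2 E k q2 b a c d e f = L2 E k q2 a b c d e f := by
  unfold L2
  rw [F2_s1 hS hs a b c d e f, F2_s1 hS hs a b c e d f, F2_s1 hS hs a b c f d e, F2_s2 hS hs c d a b e f, F2_s3 hS hs c d a f b e, F2_s3 hS hs c d a e b f, F2_s2 hS hs c e a b d f, F2_s3 hS hs c e a f b d, F2_s3 hS hs c e a d b f, F2_s2 hS hs c f a b d e, F2_s3 hS hs c f a e b d, F2_s3 hS hs c f a d b e, F2_s2 hS hs d e a b c f, F2_s3 hS hs d e a f b c, F2_s3 hS hs d e a c b f, F2_s2 hS hs d f a b c e, F2_s3 hS hs d f a e b c, F2_s3 hS hs d f a c b e, F2_s2 hS hs e f a b c d, F2_s3 hS hs e f a d b c, F2_s3 hS hs e f a c b d]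
  ring

theorem L4_sw1 (hS : St m E k) {q4 : ℕ → ℕ → ℕ → ℕ} (hs : Sym4 m q4) (a b c d e f : V) :
    L4 E k q4 a c b d e f = L4 E k q4 a b c d e f := by
  unfold L4
  rw [F4_s2 hS hs a b c d e f, F4_s2 hS hs a b c e d f, F4_s2 hS hs a b c f d e, F4_s4 hS hs a d e f b c, F4_s1 hS hs b c d e a f, F4_s1 hS hs b c d f a e, F4_s1 hS hs b c e f a d]
  ring

theorem L2_sw1 (hS : St m E k) {q2 : ℕ → ℕ → ℕ → ℕ} (hs : sym2 q2 = true) (a b c d e f : V) :
    L2 E k q2 a c b d e f = L2 E k q2 a b c d e f := by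
  unfold L2
  rw [F2_s2 hS hs a d b c e f, F2_s3 hS hs a d b f c e, F2_s3 hS hs a d b e c f, F2_s2 hS hs a e b c d f, F2_s3 hS hs a e b f c d, F2_s3 hS hs a e b d c f, F2_s2 hS hs a f b c d e, F2_s3 hS hs a f b e c d, F2_s3 hS hs a f b d c e, F2_s1 hS hs b c a d e f, F2_s1 hS hs b c a e d f, F2_s1 hS hs b c a f d e, F2_s4 hS hs d e a f b c, F2_s4 hS hs d f a e b c, F2_s4 hS hs e f a d b c]
  ring

theorem L4_sw2 (hS : St m E k) {q4 : ℕ → ℕ → ℕ → ℕ} (hs : Sym4 m q4) (a b c d e f : V) :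
    L4 E k q4 a b d c e f = L4 E k q4 a b c d e f := by
  unfold L4
  rw [F4_s3 hS hs a b c d e f, F4_s4 hS hs a b e f c d, F4_s2 hS hs a c d e b f, F4_s2 hS hs a c d f b e, F4_s2 hS hs b c d e a f, F4_s2 hS hs b c d f a e, F4_s1 hS hs c d e f a b]
  ring

theorem L2_sw2 (hS : St m E k) {q2 : ℕ → ℕ → ℕ → ℕ} (hs : sym2 q2 = true) (a b c d e f : V) :
    L2 E k q2 a b d c e f = L2 E k q2 a b c d e f := by
  unfold L2
  rw [F2_s2 hS hs a b c d e f, F2_s3 hS hs a b c f d e, F2_s3 hS hs a b c e d f, F2_s4 hS hs a e b f c d, F2_s4 hS hs a f b e c d, F2_s4 hS hs b e a f c d, F2_s4 hS hs b f a e c d, F2_s1 hS hs c d a b e f, F2_s1 hS hs c d a e b f, F2_s1 hS hs c d a f b e, F2_s4 hS hs e f a b c d]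
  ring

theorem L4_sw3 (hS : St m E k) {q4 : ℕ → ℕ → ℕ → ℕ} (hs : Sym4 m q4) (a b c d e f : V) :
    L4 E k q4 a b c e d f = L4 E k q4 a b c d e f := by
  unfold L4
  rw [F4_s4 hS hs a b c f d e, F4_s3 hS hs a b d e c f, F4_s3 hS hs a c d e b f, F4_s2 hS hs a d e f b c, F4_s3 hS hs b c d e a f, F4_s2 hS hs b d e f a c, F4_s2 hS hs c d e f a b]
  ring

theorem L2_sw3 (hS : St m E k) {q2 : ℕ → ℕ → ℕ → ℕ} (hs : sym2 q2 = true) (a b c d e f : V) :
    L2 E k q2 a b c e d f = L2 E k q2 a b c d e f := by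
  unfold L2
  rw [F2_s4 hS hs a b c f d e, F2_s4 hS hs a c b f d e, F2_s4 hS hs a f b c d e, F2_s4 hS hs b c a f d e, F2_s4 hS hs b f a c d e, F2_s4 hS hs c f a b d e, F2_s1 hS hs d e a b c f, F2_s1 hS hs d e a c b f, F2_s1 hS hs d e a f b c]
  ring


theorem K4l_eq (E : V → V → V → ℕ) (k : V → ℕ) (q4 : ℕ → ℕ → ℕ → ℕ) (h132 : ∀ x y z, E x z y = E x y z)
    (h231 : ∀ x y z, E y z x = E x y z) (h213 : ∀ x y z, E y x z = E x y z)
    (h312 : ∀ x y z, E z x y = E x y z) (a b c d e f : V) :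
    K4l E k q4 a b c d e f = L4 E k q4 a b c d e f := by
  unfold K4l L4 leaf4 F4
  simp only [Nat.add_eq, h132 a b c, h231 a b c, h213 a b c, h312 a b c, h132 a b d, h231 a b d, h213 a b d, h312 a b d, h132 a b e, h231 a b e, h213 a b e, h312 a b e, h132 a b f, h231 a b f, h213 a b f, h312 a b f, h132 a c d, h231 a c d, h213 a c d, h312 a c d, h132 a c e, h231 a c e, h213 a c e, h312 a c e, h132 a c f, h231 a c f, h213 a c f, h312 a c f, h132 a d e, h231 a d e, h213 a d e, h312 a d e, h132 a d f, h231 a d f, h213 a d f, h312 a d f, h132 a e f, h231 a e f, h213 a e f, h312 a e f, h132 b c d, h231 b c d, h213 b c d, h312 b c d, h132 b c e, h231 b c e, h213 b c e, h312 b c e, h132 b c f, h231 b c f, h213 b c f, h312 b c f, h132 b d e, h231 b d e, h213 b d e, h312 b d e, h132 b d f, h231 b d f, h213 b d f, h312 b d f, h132 b e f, h231 b e f, h213 b e f, h312 b e f, h132 c d e, h231 c d e, h213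 c d e, h312 c d e, h132 c d f, h231 c d f, h213 c d f, h312 c d f, h132 c e f, h231 c e f, h213 c e f, h312 c e f, h132 d e f, h231 d e f, h213 d e f, h312 d e f]

theorem K2l_eq (E : V → V → V → ℕ) (k : V → ℕ) (q2 : ℕ → ℕ → ℕ → ℕ) (h132 : ∀ x y z, E x z y = E x y z)
    (h231 : ∀ x y z, E y z x = E x y z) (h213 : ∀ x y z, E y x z = E x y z)
    (h312 : ∀ x y z, E z x y = E x y z) (a b c d e f : V) :
    K2l E k q2 a b c d e f = L2 E k q2 a b c d e f := by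
  unfold K2l L2 leaf2 F2
  simp only [Nat.add_eq, h132 a b c, h231 a b c, h213 a b c, h312 a b c, h132 a b d, h231 a b d, h213 a b d, h312 a b d, h132 a b e, h231 a b e, h213 a b e, h312 a b e, h132 a b f, h231 a b f, h213 a b f, h312 a b f, h132 a c d, h231 a c d, h213 a c d, h312 a c d, h132 a c e, h231 a c e, h213 a c e, h312 a c e, h132 a c f, h231 a c f, h213 a c f, h312 a c f, h132 a d e, h231 a d e, h213 a d e, h312 a d e, h132 a d f, h231 a d f, h213 a d f, h312 a d f, h132 a e f, h231 a e f, h213 a e f, h312 a e f, h132 b c d, h231 b c d, h213 b c d, h312 b c d, h132 b c e, h231 b c e, h213 b c e, h312 b c e, h132 b c f, h231 b c f, h213 b c f, h312 b c f, h132 b d e, h231 b d e, h213 b d e, h312 b d e, h132 b d f, h231 b d f, h213 b d f, h312 b d f, h132 b e f, h231 b e f, h213 b e f, h312 b e f, h132 c d e, h231 c d e, h213 c d e, h312 c d e, h132 c d f, h231 c d f, h213 c d f,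 h312 c d f, h132 c e f, h231 c e f, h213 c e f, h312 c e f, h132 d e f, h231 d e f, h213 d e f, h312 d e f]

end
end Pool.Agent.N444.Two
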