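import Pool.Agent.N444.Two.Inv

set_option autoImplicit false
set_option maxRecDepth 100000
set_option maxHeartbeats 4000000
open Finset

namespace Pool.Agent.N444.Two
open Pool.Agent.H122R2.N6 (Bt Sy NoK4 B2 k4b B2_true or_false_left cd6)

section
variable {V : Type} {E : V → V → V → ℕ} {k : V → ℕ} {m : Bool}

theorem chk_sound (hS : St m E k) {q4 : ℕ → ℕ → ℕ → ℕ} {q2 : ℕ → ℕ → ℕ → ℕ} {C : ℕ} (a b c d e f : V)
    (h : chk m q4 q2 C (k a) (k b) (k c) (k d) (k e) (E a b c) (E a b d) (E a c d) (E b c d) (E a b e) (E a c e) (E b c e) (E a d e) (E b d e) (E c d e) = true) : K4l E k q4 a b c d e f + K2l E k q2 a b c d e f ≤ C :=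
  Nat.le_of_ble_eq_true (or_false_left (or_false_left (or_false_left (or_false_left (B2_true (or_false_left (or_false_left (or_false_left (B2_true (or_false_left (or_false_left (B2_true (or_false_left (B2_true (or_false_left (or_false_left (or_false_left (B2_true (or_false_left (or_false_left (B2_true (or_false_left (B2_true (or_false_left (or_false_left (B2_true (or_false_left (B2_true (or_false_left (B2_true (B2_true h (hS.cb f)) (hS.sy.b a b f)) (hS.hi a b f)) (hS.sy.b a c f)) (hS.hi a c f)) (hS.sy.b b c f)) (hS.hi b c f)) (hS.hK a b c f)) (hS.sy.b a d f)) (hS.hi a d f)) (hS.sy.b b d f)) (hS.hi b d f)) (hS.hK a b d f)) (hS.sy.b c d f)) (hS.hi c d f)) (hS.hK a c d f)) (hS.hK b c d f)) (hS.sy.b a e f)) (hS.hi a e f)) (hS.sy.b b e f)) (hS.hi b e f)) (hS.hK a b e f)) (hS.sy.b c e f)) (hS.hi c e f)) (hS.hK a c e f)) (hS.hK b c e f)) (hS.sy.b d e f)) (hS.hi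 d e f)) (hS.hK a d e f)) (hS.hK b d e f)) (hS.hK c d e f))

def Good (E : V → V → V → ℕ) (k : V → ℕ) (q4 : ℕ → ℕ → ℕ → ℕ) (q2 : ℕ → ℕ → ℕ → ℕ) (C : ℕ) (c0 c1 c2 c3 c4 b012 b013 b023 b123 b014 b024 b124 b034 b134 b234 : ℕ) : Prop :=
  ∀ a b c d e f : V, k a = c0 → k b = c1 → k c = c2 → k d = c3 → k e = c4 → E a b c = b012 → E a b d = b013 → E a c d = b023 → E b c d = b123 → E a b e = b014 → E a c e = b024 → E b c e = b124 → E a d e = b034 → E b d e = b134 → E c d e = b234 →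
    L4 E k q4 a b c d e f + L2 E k q2 a b c d e f ≤ C

def Reps (m : Bool) (q4 : ℕ → ℕ → ℕ → ℕ) (q2 : ℕ → ℕ → ℕ → ℕ) (C : ℕ) : Prop :=
  ∀ c0 c1 c2 c3 c4 b012 b013 b023 b123 b014 b024 b124 b034 b134 b234 : ℕ, Bt c0 → Bt c1 → Bt c2 → Bt c3 → Bt c4 → Bt b012 → Bt b013 → Bt b023 → Bt b123 → Bt b014 → Bt b024 → Bt b124 → Bt b034 → Bt b134 → Bt b234 → five m c0 c1 c2 c3 c4 b012 b013 b023 b123 b014 b024 b124 b034 b134 b234 = false → tg c0 c1 c2 c3 c4 b012 b013 b023 b123 b014 b024 b124 b034 b134 b234 = 4 → chk m q4 q2 C c0 c1 c2 c3 c4 b012 b013 b023 b123 b014 b024 b124 b034 b134 b234 = true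

theorem five_false (hS : St m E k) (a b c d e : V) : five m (k a) (k b) (k c) (k d) (k e) (E a b c) (E a b d) (E a c d) (E b c d) (E a b e) (E a c e) (E b c e) (E a d e) (E b d e) (E c d e) = false := by
  unfold five
  rw [hS.hi a b c, hS.hi a b d, hS.hi a c d, hS.hi b c d, hS.hi a b e, hS.hi a c e, hS.hi b c e, hS.hi a d e, hS.hi b d e, hS.hi c d e, hS.hK a b c d, hS.hK a b c e, hS.hK a b d e, hS.hK a c d e, hS.hK b c d e]
  rfl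

theorem bd_mono {m : Bool} {x y z b : ℕ} (h : bd m x y z b = false) : bd false x y z b = false := by
  unfold bd at *
  cases hk : k4b x y z b with
  | true => rw [hk] at h; simp at h
  | false => rfl

theorem St.mono (hS : St m E k) : St false E k := ⟨hS.sy, hS.cb, hS.hK, fun x y z => bd_mono (hS.hi x y z)⟩

theorem rep_good (hS : St m E k) {q4 : ℕ → ℕ → ℕ → ℕ} {q2 : ℕ → ℕ → ℕ → ℕ} {C : ℕ}
    (hc : Reps m q4 q2 C)
    (c0 c1 c2 c3 c4 b012 b013 b023 b123 b014 b024 b124 b034 b134 b234 : ℕ) (ht : tg c0 c1 c2 c3 c4 b012 b013 b023 b123 b014 b024 b124 b034 b134 b234 = 4) : Good E k q4 q2 C c0 c1 c2 c3 c4 b012 b013 b023 b123 b014 b024 b124 b034 b134 b234 := by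
  intro a b c d e f g0 g1 g2 g3 g4 h0 h1 h2 h3 h4 h5 h6 h7 h8 h9
  subst g0 g1 g2 g3 g4 h0 h1 h2 h3 h4 h5 h6 h7 h8 h9
  have h := hc _ _ _ _ _ _ _ _ _ _ _ _ _ _ _ (hS.cb _) (hS.cb _) (hS.cb _) (hS.cb _) (hS.cb _) (hS.sy.b _ _ _) (hS.sy.b _ _ _) (hS.sy.b _ _ _) (hS.sy.b _ _ _) (hS.sy.b _ _ _) (hS.sy.b _ _ _) (hS.sy.b _ _ _) (hS.sy.b _ _ _) (hS.sy.b _ _ _) (hS.sy.b _ _ _) (five_false hS a b c d e) ht
  have h2 := chk_sound hS a b c d e f h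
  rwa [K4l_eq E k q4 hS.sy.h132 hS.sy.h231 hS.sy.h213 hS.sy.h312, K2l_eq E k q2 hS.sy.h132 hS.sy.h231 hS.sy.h213 hS.sy.h312] at h2

theorem good_sw0 (hS : St m E k) {q4 : ℕ → ℕ → ℕ → ℕ} {q2 : ℕ → ℕ → ℕ → ℕ} {C : ℕ}
    (hs4 : Sym4 m q4) (hs2 : sym2 q2 = true) (c0 c1 c2 c3 c4 b012 b013 b023 b123 b014 b024 b124 b034 b134 b234 : ℕ)
    (h : Good E k q4 q2 C c1 c0 c2 c3 c4 b012 b013 b123 b023 b014 b124 b024 b134 b034 b234) : Good E k q4 q2 C c0 c1 c2 c3 c4 b012 b013 b023 b123 b014 b024 b124 b034 b134 b234 := by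
  intro a b c d e f g0 g1 g2 g3 g4 h0 h1 h2 h3 h4 h5 h6 h7 h8 h9
  have h' := h b a c d e f g1 g0 g2 g3 g4 ((hS.sy.h213 _ _ _).trans h0) ((hS.sy.h213 _ _ _).trans h1) h3 h2 ((hS.sy.h213 _ _ _).trans h4) h6 h5 h8 h7 h9
  rwa [L4_sw0 hS hs4, L2_sw0 hS hs2] at h'

theorem good_sw1 (hS : St m E k) {q4 : ℕ → ℕ → ℕ → ℕ} {q2 : ℕ → ℕ → ℕ → ℕ} {C : ℕ}
    (hs4 : Sym4 m q4) (hs2 : sym2 q2 = true) (c0 c1 c2 c3 c4 b012 b013 b023 b123 b014 b024 b124 b034 b134 b234 : ℕ)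
    (h : Good E k q4 q2 C c0 c2 c1 c3 c4 b012 b023 b013 b123 b024 b014 b124 b034 b234 b134) : Good E k q4 q2 C c0 c1 c2 c3 c4 b012 b013 b023 b123 b014 b024 b124 b034 b134 b234 := by
  intro a b c d e f g0 g1 g2 g3 g4 h0 h1 h2 h3 h4 h5 h6 h7 h8 h9
  have h' := h a c b d e f g0 g2 g1 g3 g4 ((hS.sy.h132 _ _ _).trans h0) h2 h1 ((hS.sy.h213 _ _ _).trans h3) h5 h4 ((hS.sy.h213 _ _ _).trans h6) h7 h9 h8
  rwa [L4_sw1 hS hs4, L2_sw1 hS hs2] at h'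

theorem good_sw2 (hS : St m E k) {q4 : ℕ → ℕ → ℕ → ℕ} {q2 : ℕ → ℕ → ℕ → ℕ} {C : ℕ}
    (hs4 : Sym4 m q4) (hs2 : sym2 q2 = true) (c0 c1 c2 c3 c4 b012 b013 b023 b123 b014 b024 b124 b034 b134 b234 : ℕ)
    (h : Good E k q4 q2 C c0 c1 c3 c2 c4 b013 b012 b023 b123 b014 b034 b134 b024 b124 b234) : Good E k q4 q2 C c0 c1 c2 c3 c4 b012 b013 b023 b123 b014 b024 b124 b034 b134 b234 := by
  intro a b c d e f g0 g1 g2 g3 g4 h0 h1 h2 h3 h4 h5 h6 h7 h8 h9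
  have h' := h a b d c e f g0 g1 g3 g2 g4 h1 h0 ((hS.sy.h132 _ _ _).trans h2) ((hS.sy.h132 _ _ _).trans h3) h4 h7 h8 h5 h6 ((hS.sy.h213 _ _ _).trans h9)
  rwa [L4_sw2 hS hs4, L2_sw2 hS hs2] at h'

theorem good_sw3 (hS : St m E k) {q4 : ℕ → ℕ → ℕ → ℕ} {q2 : ℕ → ℕ → ℕ → ℕ} {C : ℕ}
    (hs4 : Sym4 m q4) (hs2 : sym2 q2 = true) (c0 c1 c2 c3 c4 b012 b013 b023 b123 b014 b024 b124 b034 b134 b234 : ℕ)
    (h : Good E k q4 q2 C c0 c1 c2 c4 c3 b012 b014 b024 b124 b013 b023 b123 b034 b134 b234) : Good E k q4 q2 C c0 c1 c2 c3 c4 b012 b013 b023 b123 b014 b024 b124 b034 b134 b234 := by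
  intro a b c d e f g0 g1 g2 g3 g4 h0 h1 h2 h3 h4 h5 h6 h7 h8 h9
  have h' := h a b c e d f g0 g1 g2 g4 g3 h0 h4 h5 h6 h1 h2 h3 ((hS.sy.h132 _ _ _).trans h7) ((hS.sy.h132 _ _ _).trans h8) ((hS.sy.h132 _ _ _).trans h9)
  rwa [L4_sw3 hS hs4, L2_sw3 hS hs2] at h'

theorem walk_good (hS : St m E k) {q4 : ℕ → ℕ → ℕ → ℕ} {q2 : ℕ → ℕ → ℕ → ℕ} {C : ℕ}
    (hs4 : Sym4 m q4) (hs2 : sym2 q2 = true)
    (hr : ∀ c0 c1 c2 c3 c4 b012 b013 b023 b123 b014 b024 b124 b034 b134 b234 : ℕ, tg c0 c1 c2 c3 c4 b012 b013 b023 b123 b014 b024 b124 b034 b134 b234 = 4 → Good E k q4 q2 C c0 c1 c2 c3 c4 b012 b013 b023 b123 b014 b024 b124 b034 b134 b234) (n : ℕ) :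
    ∀ c0 c1 c2 c3 c4 b012 b013 b023 b123 b014 b024 b124 b034 b134 b234 : ℕ, walk n c0 c1 c2 c3 c4 b012 b013 b023 b123 b014 b024 b124 b034 b134 b234 = true → Good E k q4 q2 C c0 c1 c2 c3 c4 b012 b013 b023 b123 b014 b024 b124 b034 b134 b234 := by
  induction n with
  | zero =>
    intro c0 c1 c2 c3 c4 b012 b013 b023 b123 b014 b024 b124 b034 b134 b234 h
    exact hr _ _ _ _ _ _ _ _ _ _ _ _ _ _ _ (Nat.eq_of_beq_eq_true h)
  | succ n ih =>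
    intro c0 c1 c2 c3 c4 b012 b013 b023 b123 b014 b024 b124 b034 b134 b234 h
    change (cond (Nat.beq (tg c0 c1 c2 c3 c4 b012 b013 b023 b123 b014 b024 b124 b034 b134 b234) 4) true
      (cond (Nat.beq (tg c0 c1 c2 c3 c4 b012 b013 b023 b123 b014 b024 b124 b034 b134 b234) 0) (walk n c1 c0 c2 c3 c4 b012 b013 b123 b023 b014 b124 b024 b134 b034 b234)
      (cond (Nat.beq (tg c0 c1 c2 c3 c4 b012 b013 b023 b123 b014 b024 b124 b034 b134 b234) 1) (walk n c0 c2 c1 c3 c4 b012 b023 b013 b123 b024 b014 b124 b034 b234 b134)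
      (cond (Nat.beq (tg c0 c1 c2 c3 c4 b012 b013 b023 b123 b014 b024 b124 b034 b134 b234) 2) (walk n c0 c1 c3 c2 c4 b013 b012 b023 b123 b014 b034 b134 b024 b124 b234)
      (cond (Nat.beq (tg c0 c1 c2 c3 c4 b012 b013 b023 b123 b014 b024 b124 b034 b134 b234) 3) (walk n c0 c1 c2 c4 c3 b012 b014 b024 b124 b013 b023 b123 b034 b134 b234) false))))) = true at h
    cases h4 : Nat.beq (tg c0 c1 c2 c3 c4 b012 b013 b023 b123 b014 b024 b124 b034 b134 b234) 4 with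
    | true => exact hr _ _ _ _ _ _ _ _ _ _ _ _ _ _ _ (Nat.eq_of_beq_eq_true h4)
    | false =>
    rw [h4] at h
    cases h0 : Nat.beq (tg c0 c1 c2 c3 c4 b012 b013 b023 b123 b014 b024 b124 b034 b134 b234) 0 with
    | true => rw [h0] at h; exact good_sw0 hS hs4 hs2 _ _ _ _ _ _ _ _ _ _ _ _ _ _ _ (ih _ _ _ _ _ _ _ _ _ _ _ _ _ _ _ h)
    | false =>
    rw [h0] at h
    cases h1 : Nat.beq (tg c0 c1 c2 c3 c4 b012 b013 b023 b123 b014 b024 b124 b034 b134 b234) 1 with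
    | true => rw [h1] at h; exact good_sw1 hS hs4 hs2 _ _ _ _ _ _ _ _ _ _ _ _ _ _ _ (ih _ _ _ _ _ _ _ _ _ _ _ _ _ _ _ h)
    | false =>
    rw [h1] at h
    cases h2 : Nat.beq (tg c0 c1 c2 c3 c4 b012 b013 b023 b123 b014 b024 b124 b034 b134 b234) 2 with
    | true => rw [h2] at h; exact good_sw2 hS hs4 hs2 _ _ _ _ _ _ _ _ _ _ _ _ _ _ _ (ih _ _ _ _ _ _ _ _ _ _ _ _ _ _ _ h)
    | false =>
    rw [h2] at h
    cases h3 : Nat.beq (tg c0 c1 c2 c3 c4 b012 b013 b023 b123 b014 b024 b124 b034 b134 b234) 3 with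
    | true => rw [h3] at h; exact good_sw3 hS hs4 hs2 _ _ _ _ _ _ _ _ _ _ _ _ _ _ _ (ih _ _ _ _ _ _ _ _ _ _ _ _ _ _ _ h)
    | false =>
    rw [h3] at h; simp at h

theorem leaf_all (hS : St m E k) {q4 : ℕ → ℕ → ℕ → ℕ} {q2 : ℕ → ℕ → ℕ → ℕ} {C : ℕ}
    (hs4 : Sym4 m q4) (hs2 : sym2 q2 = true) (hc : Reps m q4 q2 C)
    (a b c d e f : V) : L4 E k q4 a b c d e f + L2 E k q2 a b c d e f ≤ C := by
  have h := (B2_true (B2_true (B2_true (B2_true (B2_true (B2_true (B2_true (B2_true (B2_true (B2_true (B2_true (B2_true (B2_true (B2_true (B2_true walk_all (hS.cb a)) (hS.cb b)) (hS.cb c)) (hS.cb d)) (hS.cb e)) (hS.sy.b a b c)) (hS.sy.b a b d)) (hS.sy.b a c d)) (hS.sy.b b c d)) (hS.sy.b a b e)) (hS.sy.b a c e)) (hS.sy.b b c e)) (hS.sy.b a d e)) (hS.sy.b b d e)) (hS.sy.b c d e))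
  have h5 := five_false (m := false) hS.mono a b c d e
  have hw := or_false_left h h5
  exact walk_good hS hs4 hs2 (fun c0 c1 c2 c3 c4 b012 b013 b023 b123 b014 b024 b124 b034 b134 b234 h4 => rep_good hS hc c0 c1 c2 c3 c4 b012 b013 b023 b123 b014 b024 b124 b034 b134 b234 h4) _ _ _ _ _ _ _ _ _ _ _ _ _ _ _ _ hw
    a b c d e f rfl rfl rfl rfl rfl rfl rfl rfl rfl rfl rfl rfl rfl rfl rfl

end
end Pool.Agent.N444.Two
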