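import Mathlib

set_option autoImplicit false

namespace Pool.Agent.N444.Two

theorem choose_real (n : ℕ) : (n.choose 3 : ℝ) = n * (n - 1) * (n - 2) / 6 := by
  rw [Nat.cast_choose_eq_descPochhammer_div]
  have : (descPochhammer ℝ 3).eval (n : ℝ) = n * (n - 1) * (n - 2) := by
    simp [descPochhammer_succ_right, descPochhammer_zero, Polynomial.eval_mul]
  rw [this]
  norm_num [Nat.factorial]

end Pool.Agent.N444.Two
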